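import Pool.Agent.Lib.MP_9d2f5e_lc.Spec

set_option autoImplicit false

open Filter Topology Finset

namespace Pool.Agent.Lib.MP9d2f5e

namespace ASYM

lemma Ex_nonneg {N : ℕ} {f : (ℕ → Fin 2) → ℝ} (h : ∀ x, 0 ≤ f x) : 0 ≤ Ex N f := by
  unfold Ex
  exact div_nonneg (Finset.sum_nonneg fun _ _ => h _) (by positivity)

lemma Ex_le {N : ℕ} {f : (ℕ → Fin 2) → ℝ} {C : ℝ} (h : ∀ x, f x ≤ C) : Ex N f ≤ C := by
  unfold Ex
  rw [div_le_iff₀ (by positivity)]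
  calc ∑ x : Fin N → Fin 2, f (X x) ≤ ∑ _x : Fin N → Fin 2, C :=
        Finset.sum_le_sum fun _ _ => h _
    _ = C * 2 ^ N := by
        rw [Finset.sum_const, Finset.card_univ, Fintype.card_fun, Fintype.card_fin,
          Fintype.card_fin, nsmul_eq_mul]
        push_cast
        ring

lemma Ex_sum {N : ℕ} {ι : Type} (s : Finset ι) (f : ι → (ℕ → Fin 2) → ℝ) :
    Ex N (fun x => ∑ i ∈ s, f i x) = ∑ i ∈ s, Ex N (f i) := by
  unfold Ex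
  rw [Finset.sum_comm, Finset.sum_div]

lemma Ex_div {N : ℕ} (c : ℝ) (f : (ℕ → Fin 2) → ℝ) :
    Ex N (fun x => f x / c) = Ex N f / c := by
  unfold Ex
  rw [← Finset.sum_div, div_div, div_div, mul_comm]

end ASYM

open ASYM in
theorem specASY (hOVL : SpecOVL) (hAVG : SpecAVG) (hTAU : SpecTAU) : SpecASY := by
  intro M δ hδ
  obtain ⟨ε, hε, K₀, hK₀⟩ := hTAU M δ hδ
  have hδε : 0 < δ * ε := mul_pos hδ hε
  obtain ⟨m, hm⟩ := exists_nat_gt (3 * (M.k : ℝ) / (δ * ε))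
  set K₁ : ℕ := K₀ + m + 1 with hK₁
  have hKK : 3 * (M.k : ℝ) ≤ δ * ε * (m + 1) := by
    rw [div_lt_iff₀ hδε] at hm
    nlinarith
  obtain ⟨N₀, hN₀⟩ := exists_nat_gt (3 * (2 : ℝ) ^ K₁ / δ)
  refine ⟨N₀, fun N hN => ?_⟩
  have hNN : (N₀ : ℝ) ≤ N := by exact_mod_cast hN
  have hN1 : 3 * (2 : ℝ) ^ K₁ ≤ δ * N := by
    rw [div_lt_iff₀ hδ] at hN₀
    nlinarith
  have hN0 : (0 : ℝ) ≤ N := Nat.cast_nonneg _
  set S : ℕ → ℝ := fun k => ∑ a ∈ range (N + 1 - 2 * 2 ^ k),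
    Ex N (fun x => (ov M x a (2 ^ k) : ℝ)) with hS
  have hsum : ∑ k ∈ Ico K₀ K₁, S k / 2 ^ k ≤ 3 * M.k * N := by
    have h1 : ∑ k ∈ Ico K₀ K₁, S k / 2 ^ k = Ex N (fun x => ∑ k ∈ Ico K₀ K₁,
        (∑ a ∈ range (N + 1 - 2 * 2 ^ k), (ov M x a (2 ^ k) : ℝ)) / 2 ^ k) := by
      rw [Ex_sum]
      refine Finset.sum_congr rfl fun k _ => ?_
      rw [Ex_div, Ex_sum]
    rw [h1]
    refine Ex_le fun x => ?_
    have h2 : ∑ k ∈ Ico K₀ K₁,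
        (∑ a ∈ range (N + 1 - 2 * 2 ^ k), (ov M x a (2 ^ k) : ℝ)) / 2 ^ k =
        ∑ j : Fin M.k, ∑ k ∈ Ico K₀ K₁, (∑ a ∈ range (N + 1 - 2 * 2 ^ k),
          (meet (fun t => (conf M x t).head j) a (2 ^ k) : ℝ)) / 2 ^ k := by
      rw [Finset.sum_comm]
      refine Finset.sum_congr rfl fun k _ => ?_
      rw [← Finset.sum_div, Finset.sum_comm]
      congr 1
      refine Finset.sum_congr rfl fun a _ => ?_
      unfold ov
      push_cast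
      rfl
    rw [h2]
    calc ∑ j : Fin M.k, ∑ k ∈ Ico K₀ K₁, (∑ a ∈ range (N + 1 - 2 * 2 ^ k),
          (meet (fun t => (conf M x t).head j) a (2 ^ k) : ℝ)) / 2 ^ k
        ≤ ∑ _j : Fin M.k, 3 * (N : ℝ) := Finset.sum_le_sum fun j _ => hOVL _ N K₀ K₁
      _ = 3 * M.k * N := by
          rw [Finset.sum_const, Finset.card_univ, Fintype.card_fin, nsmul_eq_mul]
          ring
  obtain ⟨k, hk, hk1⟩ : ∃ k ∈ Ico K₀ K₁, S k / 2 ^ k ≤ δ * ε * N := by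
    refine Finset.exists_le_of_sum_le (Finset.nonempty_Ico.2 (by omega)) (hsum.trans ?_)
    rw [Finset.sum_const, Nat.card_Ico, nsmul_eq_mul]
    have h3 : ((K₁ - K₀ : ℕ) : ℝ) = m + 1 := by
      rw [hK₁, show K₀ + m + 1 - K₀ = m + 1 by omega]
      push_cast
      rfl
    rw [h3]
    have := mul_le_mul_of_nonneg_right hKK hN0
    linarith
  rw [Finset.mem_Ico] at hk
  obtain ⟨h2k, h3k, htau⟩ := hK₀ k hk.1
  have hp : (0 : ℝ) < 2 ^ k := by positivity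
  have hεp : 0 < ε * 2 ^ k := mul_pos hε hp
  have hw1 : 1 ≤ ⌈ε * 2 ^ k⌉₊ := Nat.one_le_iff_ne_zero.2 (Nat.ceil_pos.2 hεp).ne'
  have hS0 : 0 ≤ S k := Finset.sum_nonneg fun a _ => Ex_nonneg fun x => Nat.cast_nonneg _
  have hSw : S k / (⌈ε * 2 ^ k⌉₊ : ℝ) ≤ δ * N := by
    calc S k / (⌈ε * 2 ^ k⌉₊ : ℝ) ≤ S k / (ε * 2 ^ k) :=
          div_le_div_of_nonneg_left hS0 hεp (Nat.le_ceil _)
      _ = S k / 2 ^ k / ε := by rw [div_div, mul_comm]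
      _ ≤ δ * ε * N / ε := div_le_div_of_nonneg_right hk1 hε.le
      _ = δ * N := by field_simp
  have hA := hAVG M N k ⌈ε * 2 ^ k⌉₊ δ h2k hw1 hδ h3k
  have h4 : (N : ℝ) * tau M (2 ^ k) ⌈ε * 2 ^ k⌉₊ δ ≤ N * δ := mul_le_mul_of_nonneg_left htau hN0
  have h5 : 3 * (2 : ℝ) ^ k ≤ δ * N := by
    have : (2 : ℝ) ^ k ≤ 2 ^ K₁ := pow_le_pow_right₀ (by norm_num) hk.2.le
    linarith
  have h6 : (∑ a ∈ range (N + 1 - 2 * 2 ^ k), Ex N (fun x => (ov M x a (2 ^ k) : ℝ))) /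
      (⌈ε * 2 ^ k⌉₊ : ℝ) ≤ δ * N := hSw
  linarith

end Pool.Agent.Lib.MP9d2f5e
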