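import Pool.Agent.Lib.MP_9d2f5e_lc.Spec

/-!
# MP_9d2f5e_lc: the average number of agreements (module AVG)
-/

set_option autoImplicit false

open Filter Topology Finset

namespace Pool.Agent.Lib.MP9d2f5e

namespace AVGM

theorem ind_nonneg (p : Prop) : 0 ≤ ind p := by
  unfold ind
  split_ifs <;> norm_num

theorem ind_le_one (p : Prop) : ind p ≤ 1 := by
  unfold ind
  split_ifs <;> norm_num

theorem ind_true {p : Prop} (h : p) : ind p = 1 := by
  unfold ind
  rw [if_pos h]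

theorem Ex_mono (N : ℕ) {f g : (ℕ → Fin 2) → ℝ} (h : ∀ x, f x ≤ g x) : Ex N f ≤ Ex N g := by
  unfold Ex
  gcongr with x
  exact h _

theorem Ex_add (N : ℕ) (f g : (ℕ → Fin 2) → ℝ) :
    Ex N (fun x => f x + g x) = Ex N f + Ex N g := by
  unfold Ex
  rw [Finset.sum_add_distrib, add_div]

theorem Ex_mul (N : ℕ) (c : ℝ) (f : (ℕ → Fin 2) → ℝ) :
    Ex N (fun x => c * f x) = c * Ex N f := by
  unfold Ex
  rw [← Finset.mul_sum, mul_div_assoc]

theorem Ex_const (N : ℕ) (c : ℝ) : Ex N (fun _ => c) = c := by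
  unfold Ex
  rw [Finset.sum_const, Finset.card_univ, Fintype.card_fun, Fintype.card_fin, Fintype.card_fin,
    nsmul_eq_mul]
  push_cast
  field_simp

theorem Ex_sum (N A : ℕ) (f : ℕ → (ℕ → Fin 2) → ℝ) :
    Ex N (fun x => ∑ a ∈ range A, f a x) = ∑ a ∈ range A, Ex N (f a) := by
  unfold Ex
  rw [Finset.sum_comm, Finset.sum_div]

/-- the window averages -/
theorem window (g : ℕ → ℝ) (h0 : ∀ n, 0 ≤ g n) (h1 : ∀ n, g n ≤ 1) (N s : ℕ) :
    (s : ℝ) * ∑ n ∈ range N, g n ≤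
      ∑ a ∈ range (N + 1 - 2 * s), ∑ n ∈ Ico (a + s) (a + 2 * s), g n + 2 * (s : ℝ) ^ 2 := by
  have hS : ∀ (T : Finset ℕ), ∑ n ∈ T, g n ≤ T.card := by
    intro T
    calc ∑ n ∈ T, g n ≤ ∑ _n ∈ T, (1 : ℝ) := Finset.sum_le_sum fun n _ => h1 n
      _ = T.card := by simp
  by_cases hN : 2 * s ≤ N + 1
  · set A := N + 1 - 2 * s with hA
    have h2 : ∀ a, ∑ n ∈ Ico (a + s) (a + 2 * s), g n = ∑ j ∈ Ico s (2 * s), g (a + j) := by
      intro a
      rw [Finset.sum_Ico_add g s (2 * s) a, add_comm s a, add_comm (2 * s) a]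
    have h3 : ∑ a ∈ range A, ∑ n ∈ Ico (a + s) (a + 2 * s), g n =
        ∑ j ∈ Ico s (2 * s), ∑ n ∈ Ico j (A + j), g n := by
      rw [Finset.sum_congr rfl fun a _ => h2 a, Finset.sum_comm]
      refine Finset.sum_congr rfl fun j _ => ?_
      rw [Finset.range_eq_Ico, Finset.sum_Ico_add' g 0 A j, zero_add]
    have h4 : ∀ j ∈ Ico s (2 * s), ∑ n ∈ range N, g n ≤ ∑ n ∈ Ico j (A + j), g n + 2 * s := by
      intro j hj
      rw [Finset.mem_Ico] at hj
      have e1 := Finset.sum_Ico_consecutive g (Nat.zero_le j) (show j ≤ A + j by omega)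
      have e2 := Finset.sum_Ico_consecutive g (Nat.zero_le (A + j)) (show A + j ≤ N by omega)
      have e3 := hS (Ico 0 j)
      have e4 := hS (Ico (A + j) N)
      rw [Nat.card_Ico] at e3 e4
      have e5 : ((j - 0 : ℕ) : ℝ) + ((N - (A + j) : ℕ) : ℝ) ≤ 2 * s := by
        have : (j - 0) + (N - (A + j)) ≤ 2 * s := by omega
        exact_mod_cast this
      rw [Finset.range_eq_Ico, ← e2, ← e1]
      linarith
    have h5 := Finset.sum_le_sum h4
    rw [Finset.sum_const, Nat.card_Ico, Finset.sum_add_distrib, Finset.sum_const, Nat.card_Ico,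
      nsmul_eq_mul, nsmul_eq_mul] at h5
    have h6 : 2 * s - s = s := by omega
    rw [h6] at h5
    rw [h3]
    linarith
  · have h2 : N + 1 - 2 * s = 0 := by omega
    rw [h2, Finset.range_zero, Finset.sum_empty, zero_add]
    have h3 := hS (range N)
    rw [Finset.card_range] at h3
    have h4 : (N : ℝ) ≤ 2 * s := by
      have : N ≤ 2 * s := by omega
      exact_mod_cast this
    nlinarith [(Nat.cast_nonneg s : (0 : ℝ) ≤ s)]

/-- the pointwise bound -/
theorem point {ag ov w s δ : ℝ} (hw : 0 < w) (hov : 0 ≤ ov) (hs : 0 ≤ s)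
    (hag : ag ≤ s) (hδ : 0 ≤ δ) :
    ag ≤ (1 / 2 + δ) * s + s / w * ov + s * ind (ov ≤ w ∧ (1 / 2 + δ) * s ≤ ag) := by
  have h1 : 0 ≤ (1 / 2 + δ) * s := by positivity
  have h2 : 0 ≤ s / w * ov := by positivity
  have h3 : 0 ≤ s * ind (ov ≤ w ∧ (1 / 2 + δ) * s ≤ ag) := mul_nonneg hs (ind_nonneg _)
  by_cases h : ov ≤ w
  · by_cases h' : (1 / 2 + δ) * s ≤ ag
    · rw [ind_true ⟨h, h'⟩]
      linarith
    · push Not at h'
      linarith
  · push Not at h
    have h4 : s ≤ s / w * ov := by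
      rw [div_mul_eq_mul_div, le_div_iff₀ hw]
      nlinarith
    linarith

theorem agr_le (M : TM) (x : ℕ → Fin 2) (a s : ℕ) : agr M x a s ≤ s := by
  unfold agr
  calc ∑ n ∈ Ico (a + s) (a + 2 * s), ind (Agree M x n)
      ≤ ∑ _n ∈ Ico (a + s) (a + 2 * s), (1 : ℝ) := Finset.sum_le_sum fun n _ => ind_le_one _
    _ = s := by
      rw [Finset.sum_const, Nat.card_Ico, nsmul_eq_mul, mul_one]
      have : a + 2 * s - (a + s) = s := by omega
      rw [this]

theorem tau_nonneg (M : TM) (s w : ℕ) (δ : ℝ) : 0 ≤ tau M s w δ := by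
  unfold tau Db
  positivity

end AVGM

open AVGM in
theorem specAVG (hCNT : SpecCNT) (hGLU : SpecGLU) : SpecAVG := by
  intro M N k w δ hk hw hδ h3
  obtain ⟨s, hs⟩ : ∃ s : ℕ, s = 2 ^ k := ⟨_, rfl⟩
  obtain ⟨A, hA⟩ : ∃ A : ℕ, A = N + 1 - 2 * s := ⟨_, rfl⟩
  have hsR : (2 : ℝ) ^ k = (s : ℝ) := by rw [hs]; push_cast; rfl
  rw [hsR, ← hs, ← hA]
  have hs0 : (0 : ℝ) < s := by rw [← hsR]; positivity
  have hw0 : (0 : ℝ) < w := by exact_mod_cast hw
  -- pointwise
  have h1 : ∀ x : ℕ → Fin 2, (s : ℝ) * ∑ n ∈ range N, ind (Agree M x n) ≤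
      ∑ a ∈ range A, ((1 / 2 + δ) * s + s / w * (ov M x a s : ℝ) +
        s * ind (ov M x a s ≤ w ∧ (1 / 2 + δ) * 2 ^ k ≤ agr M x a s)) + 2 * (s : ℝ) ^ 2 := by
    intro x
    have e1 := window (fun n => ind (Agree M x n)) (fun n => ind_nonneg _) (fun n => ind_le_one _)
      N s
    rw [← hA] at e1
    refine e1.trans ?_
    gcongr with a ha
    have e2 := point (ag := agr M x a s) (ov := (ov M x a s : ℝ)) (w := (w : ℝ)) (s := (s : ℝ))
      (δ := δ) hw0 (Nat.cast_nonneg _) hs0.le (agr_le M x a s) hδ.le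
    have e3 : ((ov M x a s : ℝ) ≤ (w : ℝ) ∧ (1 / 2 + δ) * (s : ℝ) ≤ agr M x a s) =
        (ov M x a s ≤ w ∧ (1 / 2 + δ) * 2 ^ k ≤ agr M x a s) := by
      rw [hsR, Nat.cast_le]
    rw [e3] at e2
    exact e2
  -- the bad event
  have h2 : ∀ a ∈ range A, Ex N (fun x => ind (ov M x a s ≤ w ∧
      (1 / 2 + δ) * 2 ^ k ≤ agr M x a s)) ≤ tau M s w δ := by
    intro a ha
    rw [Finset.mem_range] at ha
    rw [hGLU N a s _ (by omega)]
    have e1 : ∀ x : ℕ → Fin 2, (∑ b : Fin s → Fin 2, ind (ov M (glue a s x b) a s ≤ w ∧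
        (1 / 2 + δ) * 2 ^ k ≤ agr M (glue a s x b) a s)) / 2 ^ s ≤ tau M s w δ := by
      intro x
      have := hCNT M x a k w δ hk hδ h3
      rw [← hs] at this
      exact this
    calc _ ≤ Ex N (fun _ => tau M s w δ) := Ex_mono N e1
      _ = tau M s w δ := Ex_const N _
  -- expectation
  have h4 := Ex_mono N h1
  rw [Ex_mul, Ex_add, Ex_const, Ex_sum N A] at h4
  have h5 : ∀ a ∈ range A, Ex N (fun x => (1 / 2 + δ) * s + s / w * (ov M x a s : ℝ) +
        s * ind (ov M x a s ≤ w ∧ (1 / 2 + δ) * 2 ^ k ≤ agr M x a s)) ≤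
      (1 / 2 + δ) * s + s / w * Ex N (fun x => (ov M x a s : ℝ)) + s * tau M s w δ := by
    intro a ha
    rw [Ex_add, Ex_add, Ex_const, Ex_mul, Ex_mul]
    have := h2 a ha
    gcongr
  have h6 := Finset.sum_le_sum h5
  rw [Finset.sum_add_distrib, Finset.sum_add_distrib, Finset.sum_const, Finset.sum_const,
    Finset.card_range, ← Finset.mul_sum, nsmul_eq_mul, nsmul_eq_mul] at h6
  have hAN : (A : ℝ) ≤ N := by
    have : A ≤ N := by
      have : 1 ≤ s := by exact_mod_cast hs0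
      omega
    exact_mod_cast this
  have hτ := tau_nonneg M s w δ
  have h7 : (s : ℝ) * Ex N (fun x => ∑ n ∈ range N, ind (Agree M x n)) ≤
      s * (N * (1 / 2 + δ) + (∑ a ∈ range A, Ex N (fun x => (ov M x a s : ℝ))) / w +
        N * tau M s w δ + 3 * s) := by
    have e1 : (A : ℝ) * ((1 / 2 + δ) * s) ≤ N * ((1 / 2 + δ) * s) := by
      gcongr
    have e2 : (A : ℝ) * (s * tau M s w δ) ≤ N * (s * tau M s w δ) := by
      gcongr
    have e3 : (s : ℝ) / w * ∑ a ∈ range A, Ex N (fun x => (ov M x a s : ℝ)) =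
        s * ((∑ a ∈ range A, Ex N (fun x => (ov M x a s : ℝ))) / w) := by ring
    rw [e3] at h6
    nlinarith
  exact le_of_mul_le_mul_left h7 hs0

end Pool.Agent.Lib.MP9d2f5e
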