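import Pool.Agent.Lib.MP_9d2f5e_lc.Spec

/-!
# MP_9d2f5e_lc, module CAT: Catalan numbers modulo 2
-/

set_option autoImplicit false

namespace Pool.Agent.Lib.MP9d2f5e

theorem specCAT : SpecCAT := by
  intro k
  induction k using Nat.strong_induction_on with
  | _ k ih =>
    haveI : Fact (Nat.Prime 2) := ⟨Nat.prime_two⟩
    have h := Choose.choose_modEq_choose_mod_mul_choose_div_nat (n := 2 * k + 1) (k := k) (p := 2)
    have h1 : (2 * k + 1) % 2 = 1 := by omega
    have h2 : (2 * k + 1) / 2 = k := by omega
    have h3 : Nat.choose 1 (k % 2) = 1 := by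
      rcases Nat.mod_two_eq_zero_or_one k with h | h <;> rw [h] <;> rfl
    rw [h1, h2, h3, one_mul] at h
    have hodd : Odd (Nat.choose (2 * k + 1) k) ↔ Odd (Nat.choose k (k / 2)) := by
      rw [Nat.odd_iff, Nat.odd_iff, h]
    rw [hodd]
    rcases Nat.even_or_odd' k with ⟨l, hl | hl⟩
    · rcases Nat.eq_zero_or_pos l with h0 | h0
      · subst h0
        subst hl
        simp only [mul_zero, Nat.choose_zero_right, Nat.zero_div, zero_add]
        constructor
        · intro _
          exact ⟨0, rfl⟩
        · intro _
          exact odd_one
      · constructor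
        · intro ho
          exfalso
          have he : 2 ∣ Nat.choose k (k / 2) := by
            have := Nat.two_dvd_centralBinom_of_one_le h0
            rw [Nat.centralBinom] at this
            rw [hl, Nat.mul_div_cancel_left l (by norm_num)]
            exact this
          rw [Nat.odd_iff] at ho
          omega
        · rintro ⟨j, hj⟩
          exfalso
          rcases Nat.eq_zero_or_pos j with h5 | h5
          · rw [h5, pow_zero] at hj
            omega
          · obtain ⟨i, rfl⟩ := Nat.exists_eq_succ_of_ne_zero h5.ne'
            rw [pow_succ] at hj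
            omega
    · have hd : k / 2 = l := by omega
      have hi := ih l (by omega)
      rw [hd, hl, hi]
      constructor
      · rintro ⟨j, hj⟩
        exact ⟨j + 1, by rw [pow_succ, ← hj]; ring⟩
      · rintro ⟨j, hj⟩
        rcases Nat.eq_zero_or_pos j with h5 | h5
        · rw [h5, pow_zero] at hj
          omega
        · obtain ⟨i, rfl⟩ := Nat.exists_eq_succ_of_ne_zero h5.ne'
          rw [pow_succ] at hj
          exact ⟨i, by omega⟩

end Pool.Agent.Lib.MP9d2f5e
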