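import Pool.Agent.Lib.MP_9d2f5e_lc.Spec

/-!
# MP_9d2f5e_lc, module CHF: Chernoff bound
-/

set_option autoImplicit false

open Finset

namespace Pool.Agent.Lib.MP9d2f5e

theorem specCHF : SpecCHF := by
  intro n m δ hδ
  have h1 : ∀ z : Fin n → Bool, ind ((1 / 2 + δ) * n ≤ ∑ i, ind (z i = m i)) ≤
      Real.exp (-(4 * δ * ((1 / 2 + δ) * n))) * ∏ i, Real.exp (4 * δ * ind (z i = m i)) := by
    intro z
    rw [← Real.exp_sum, ← Real.exp_add, ← Finset.mul_sum]
    by_cases h : (1 / 2 + δ) * n ≤ ∑ i, ind (z i = m i)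
    · rw [ind, if_pos h]
      apply Real.one_le_exp
      have := mul_le_mul_of_nonneg_left h (by positivity : 0 ≤ 4 * δ)
      linarith
    · rw [ind, if_neg h]
      exact (Real.exp_pos _).le
  have h2 : ∑ z : Fin n → Bool, ∏ i, Real.exp (4 * δ * ind (z i = m i)) =
      (Real.exp (4 * δ) + 1) ^ n := by
    have h3 := Finset.prod_univ_sum (fun _ : Fin n => (univ : Finset Bool))
      (fun i b => Real.exp (4 * δ * ind (b = m i)))
    rw [Fintype.piFinset_univ] at h3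
    rw [← h3]
    have h4 : ∀ i : Fin n, ∑ b : Bool, Real.exp (4 * δ * ind (b = m i)) = Real.exp (4 * δ) + 1 := by
      intro i
      rw [Fintype.sum_bool]
      cases m i <;> simp [ind, add_comm]
    rw [Finset.prod_congr rfl fun i _ => h4 i]
    simp
  have h5 : Real.exp (4 * δ) + 1 ≤ 2 * Real.exp (2 * δ + 2 * δ ^ 2) := by
    have hc := Real.cosh_le_exp_half_sq (2 * δ)
    rw [Real.cosh_eq] at hc
    have e1 : Real.exp (4 * δ) + 1 = Real.exp (2 * δ) * (Real.exp (2 * δ) + Real.exp (-(2 * δ))) := by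
      rw [mul_add, ← Real.exp_add, ← Real.exp_add, add_neg_cancel, Real.exp_zero]
      ring_nf
    rw [e1, Real.exp_add]
    have e2 : (2 * δ) ^ 2 / 2 = 2 * δ ^ 2 := by ring
    rw [e2] at hc
    have := mul_le_mul_of_nonneg_left hc (Real.exp_pos (2 * δ)).le
    linarith
  calc ∑ z : Fin n → Bool, ind ((1 / 2 + δ) * n ≤ ∑ i, ind (z i = m i))
      ≤ ∑ z : Fin n → Bool, Real.exp (-(4 * δ * ((1 / 2 + δ) * n))) *
          ∏ i, Real.exp (4 * δ * ind (z i = m i)) := Finset.sum_le_sum fun z _ => h1 z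
    _ = Real.exp (-(4 * δ * ((1 / 2 + δ) * n))) * (Real.exp (4 * δ) + 1) ^ n := by
        rw [← Finset.mul_sum, h2]
    _ ≤ Real.exp (-(4 * δ * ((1 / 2 + δ) * n))) * (2 * Real.exp (2 * δ + 2 * δ ^ 2)) ^ n := by
        gcongr
    _ = 2 ^ n * Real.exp (-(2 * δ ^ 2 * n)) := by
        rw [mul_pow, ← Real.exp_nat_mul, mul_left_comm, ← Real.exp_add]
        congr 2
        ring

end Pool.Agent.Lib.MP9d2f5e
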