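import Pool.Agent.Lib.MP_9d2f5e_lc.Spec

/-!
# MP_9d2f5e_lc, module CNT: few inputs of a block give many agreements
-/

set_option autoImplicit false

open Filter Topology Finset

namespace Pool.Agent.Lib.MP9d2f5e

namespace CNTM

open Classical in
theorem ind_true {p : Prop} (h : p) : ind p = 1 := by
  unfold ind; rw [if_pos h]

open Classical in
theorem ind_false {p : Prop} (h : ¬ p) : ind p = 0 := by
  unfold ind; rw [if_neg h]

theorem ind_le_one (p : Prop) : ind p ≤ 1 := by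
  by_cases h : p
  · rw [ind_true h]
  · rw [ind_false h]; exact zero_le_one

theorem ind_mono {p q : Prop} (h : p → q) : ind p ≤ ind q := by
  by_cases hp : p
  · rw [ind_true hp, ind_true (h hp)]
  · rw [ind_false hp]
    by_cases hq : q
    · rw [ind_true hq]; exact zero_le_one
    · rw [ind_false hq]

open Classical in
theorem sum_ind {ι : Type} [Fintype ι] (p : ι → Prop) :
    ∑ i, ind (p i) = ((univ.filter p).card : ℝ) := by
  rw [card_filter]
  push_cast
  refine sum_congr rfl fun i _ => ?_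
  by_cases h : p i
  · rw [ind_true h, if_pos h]
  · rw [ind_false h, if_neg h]

theorem glue_out {a s : ℕ} {x : ℕ → Fin 2} {b : Fin s → Fin 2} {t : ℕ}
    (h : t < a ∨ a + s ≤ t) : glue a s x b t = x t := by
  unfold glue
  rw [dif_neg]
  omega

theorem glue_in {a s : ℕ} {x : ℕ → Fin 2} {b : Fin s → Fin 2} {t : ℕ} (h1 : a ≤ t)
    (h2 : t < a + s) : glue a s x b t = b ⟨t - a, by omega⟩ := by
  unfold glue
  rw [dif_pos ⟨h1, h2⟩]

theorem agr_le (M : TM) (y : ℕ → Fin 2) (a n : ℕ) :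
    agr M y a (n + 3) ≤ ∑ i : Fin n, ind (Agree M y (a + (n + 3) + (i + 1))) + 3 := by
  unfold agr
  rw [sum_Ico_eq_sum_range]
  have e : a + 2 * (n + 3) - (a + (n + 3)) = n + 3 := by omega
  rw [e, sum_range_succ, sum_range_succ, sum_range_succ', sum_range]
  have h0 := ind_le_one (Agree M y (a + (n + 3) + 0))
  have h1 := ind_le_one (Agree M y (a + (n + 3) + (n + 1)))
  have h2 := ind_le_one (Agree M y (a + (n + 3) + (n + 2)))
  linarith

/-- one class -/
theorem class_bound (hCHF : SpecCHF) (M : TM) (x : ℕ → Fin 2) (a n : ℕ) (δ : ℝ) (hδ : 0 < δ)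
    (h3 : 3 ≤ δ * ((n + 3 : ℕ) : ℝ))
    (hinj : ∀ y y' : ℕ → Fin 2, (∀ t, (t < a + 3 ∨ a + (n + 3) ≤ t) → y t = y' t) →
      (∀ r, 1 ≤ r → r + 3 ≤ n + 3 →
        (Odd (Y y (a + (n + 3) + r)) ↔ Odd (Y y' (a + (n + 3) + r)))) → y = y')
    (B : Finset (Fin (n + 3) → Fin 2))
    (hst : ∀ b ∈ B, ∀ b' ∈ B, ∀ r < n + 3, (conf M (glue a (n + 3) x b) (a + (n + 3) + r)).st =
      (conf M (glue a (n + 3) x b') (a + (n + 3) + r)).st)
    (h0 : ∀ b ∈ B, ∀ b' ∈ B, ∀ (i : ℕ) (hi : i < 3), b ⟨i, by omega⟩ = b' ⟨i, by omega⟩)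
    (hbad : ∀ b ∈ B, (1 / 2 + δ) * ((n + 3 : ℕ) : ℝ) ≤ agr M (glue a (n + 3) x b) a (n + 3)) :
    (B.card : ℝ) ≤ 2 ^ n * Real.exp (-(δ ^ 2 / 2 * n)) := by
  classical
  rcases B.eq_empty_or_nonempty with rfl | ⟨b₁, hb₁⟩
  · rw [card_empty]
    push_cast
    positivity
  set m : Fin n → Bool := fun i =>
    decide ((conf M (glue a (n + 3) x b₁) (a + (n + 3) + ((i : ℕ) + 1))).st ∈ M.F (a + (n + 3) + ((i : ℕ) + 1))) with hm
  set z : (Fin (n + 3) → Fin 2) → Fin n → Bool := fun b i =>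
    decide (Odd (Y (glue a (n + 3) x b) (a + (n + 3) + ((i : ℕ) + 1)))) with hz
  have hchf := hCHF n m (δ / 2) (by positivity)
  rw [sum_ind] at hchf
  have e2 : -(2 * (δ / 2) ^ 2 * (n : ℝ)) = -(δ ^ 2 / 2 * n) := by ring
  rw [e2] at hchf
  refine le_trans ?_ hchf
  rw [Nat.cast_le]
  refine card_le_card_of_injOn z ?_ ?_
  · intro b hb
    have hb : b ∈ B := hb
    rw [mem_coe, mem_filter]
    refine ⟨mem_univ _, ?_⟩
    have h1 := hbad b hb
    have h2 := agr_le M (glue a (n + 3) x b) a n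
    have h4 : ∑ i : Fin n, ind (Agree M (glue a (n + 3) x b) (a + (n + 3) + (i + 1))) ≤
        ∑ i : Fin n, ind (z b i = m i) := by
      refine sum_le_sum fun i _ => ind_mono fun hag => ?_
      have hag : (conf M (glue a (n + 3) x b) (a + (n + 3) + ((i : ℕ) + 1))).st ∈ M.F (a + (n + 3) + ((i : ℕ) + 1)) ↔
        Odd (Y (glue a (n + 3) x b) (a + (n + 3) + ((i : ℕ) + 1))) := hag
      have hs := hst b hb b₁ hb₁ ((i : ℕ) + 1) (by have := i.2; omega)
      simp only [hz, hm]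
      rw [decide_eq_decide, ← hs]
      exact hag.symm
    push_cast at h1 h3 ⊢
    nlinarith
  · intro b hb b' hb' hbb
    have hb : b ∈ B := hb
    have hb' : b' ∈ B := hb'
    have hg : glue a (n + 3) x b = glue a (n + 3) x b' := by
      refine hinj _ _ ?_ ?_
      · intro t ht
        by_cases h5 : t < a ∨ a + (n + 3) ≤ t
        · rw [glue_out h5, glue_out h5]
        · rw [glue_in (by omega) (by omega), glue_in (by omega) (by omega)]
          exact h0 b hb b' hb' (t - a) (by omega)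
      · intro r hr1 hr3
        have h6 := congrFun hbb (⟨r - 1, by omega⟩ : Fin n)
        simp only [hz] at h6
        rw [decide_eq_decide] at h6
        have e : r - 1 + 1 = r := by omega
        rw [e] at h6
        exact h6
    funext i
    have h7 := congrFun hg (a + i)
    rw [glue_in (by omega) (by have := i.2; omega), glue_in (by omega) (by have := i.2; omega)]
      at h7
    have e : (⟨a + (i : ℕ) - a, by have := i.2; omega⟩ : Fin (n + 3)) = i := by
      apply Fin.ext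
      simp
    rw [e] at h7
    exact h7

theorem core (hCHF : SpecCHF) (hDSC : SpecDSC) (M : TM) (x : ℕ → Fin 2) (a n w : ℕ) (δ : ℝ)
    (hδ : 0 < δ) (h3 : 3 ≤ δ * ((n + 3 : ℕ) : ℝ))
    (hinj : ∀ y y' : ℕ → Fin 2, (∀ t, (t < a + 3 ∨ a + (n + 3) ≤ t) → y t = y' t) →
      (∀ r, 1 ≤ r → r + 3 ≤ n + 3 →
        (Odd (Y y (a + (n + 3) + r)) ↔ Odd (Y y' (a + (n + 3) + r)))) → y = y') :
    (∑ b : Fin (n + 3) → Fin 2, ind (ov M (glue a (n + 3) x b) a (n + 3) ≤ w ∧
      (1 / 2 + δ) * ((n + 3 : ℕ) : ℝ) ≤ agr M (glue a (n + 3) x b) a (n + 3))) / 2 ^ (n + 3) ≤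
      tau M (n + 3) w δ := by
  classical
  obtain ⟨D, hD, Φ, hcard, hΦ⟩ := hDSC M x a (n + 3) w (by omega)
  set Bad : (Fin (n + 3) → Fin 2) → Prop := fun b => ov M (glue a (n + 3) x b) a (n + 3) ≤ w ∧
      (1 / 2 + δ) * ((n + 3 : ℕ) : ℝ) ≤ agr M (glue a (n + 3) x b) a (n + 3) with hBad
  set Ψ : (Fin (n + 3) → Fin 2) → D × (Fin 3 → Fin 2) := fun b =>
    (Φ b, fun i => b ⟨i, by have := i.2; omega⟩) with hΨ
  have hsum : ∑ b : Fin (n + 3) → Fin 2, ind (Bad b) =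
      ∑ κ : D × (Fin 3 → Fin 2), ((univ.filter fun b => Bad b ∧ Ψ b = κ).card : ℝ) := by
    rw [sum_ind, card_eq_sum_card_fiberwise (f := Ψ) (t := univ) (fun _ _ => mem_univ _)]
    push_cast
    refine sum_congr rfl fun κ _ => ?_
    rw [filter_filter]
    congr!
  have hcl : ∀ κ : D × (Fin 3 → Fin 2), ((univ.filter fun b => Bad b ∧ Ψ b = κ).card : ℝ) ≤
      2 ^ n * Real.exp (-(δ ^ 2 / 2 * n)) := by
    intro κ
    refine class_bound hCHF M x a n δ hδ h3 hinj _ ?_ ?_ ?_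
    · intro b hb b' hb' r hr
      rw [mem_filter] at hb hb'
      refine hΦ b b' hb.2.1.1 hb'.2.1.1 ?_ r hr
      exact congrArg Prod.fst (hb.2.2.trans hb'.2.2.symm)
    · intro b hb b' hb' i hi
      rw [mem_filter] at hb hb'
      exact congrFun (congrArg Prod.snd (hb.2.2.trans hb'.2.2.symm)) (⟨i, hi⟩ : Fin 3)
    · intro b hb
      rw [mem_filter] at hb
      exact hb.2.1.2
  have htot : ∑ b : Fin (n + 3) → Fin 2, ind (Bad b) ≤
      (Fintype.card D : ℝ) * 8 * (2 ^ n * Real.exp (-(δ ^ 2 / 2 * n))) := by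
    rw [hsum]
    refine (sum_le_sum fun κ _ => hcl κ).trans ?_
    rw [sum_const, card_univ, nsmul_eq_mul, Fintype.card_prod]
    have e8 : Fintype.card (Fin 3 → Fin 2) = 8 := by simp
    rw [e8]
    push_cast
    exact le_refl _
  rw [div_le_iff₀ (by positivity)]
  refine htot.trans ?_
  unfold tau
  have e3 : ((n + 3 : ℕ) : ℝ) - 3 = n := by push_cast; ring
  rw [e3]
  have hE := Real.exp_pos (-(δ ^ 2 / 2 * (n : ℝ)))
  have h2 : (0 : ℝ) < 2 ^ n := by positivity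
  calc (Fintype.card D : ℝ) * 8 * (2 ^ n * Real.exp (-(δ ^ 2 / 2 * n)))
      = (Fintype.card D : ℝ) * (Real.exp (-(δ ^ 2 / 2 * n)) * 2 ^ (n + 3)) := by ring
    _ ≤ Db M (n + 3) w * (Real.exp (-(δ ^ 2 / 2 * n)) * 2 ^ (n + 3)) := by
        refine mul_le_mul_of_nonneg_right hcard ?_
        positivity
    _ = _ := by ring

end CNTM

open CNTM in
theorem specCNT (hINJ : SpecINJ) (hCHF : SpecCHF) (hDSC : SpecDSC) : SpecCNT := by
  intro M x a k w δ hk hδ h3
  have h4 : 4 ≤ 2 ^ k := by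
    calc 4 = 2 ^ 2 := by norm_num
      _ ≤ 2 ^ k := Nat.pow_le_pow_right (by norm_num) hk
  obtain ⟨n, hn⟩ : ∃ n, 2 ^ k = n + 3 := ⟨2 ^ k - 3, by omega⟩
  have hr : (2 : ℝ) ^ k = ((n + 3 : ℕ) : ℝ) := by
    rw [← hn]; push_cast; rfl
  have hinj := hINJ k a
  rw [hn] at hinj
  rw [hr] at h3 ⊢
  rw [hn]
  exact core hCHF hDSC M x a n w δ hδ h3 fun y y' h1 h2 => hinj y y' hk h1 h2

end Pool.Agent.Lib.MP9d2f5e
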