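import Pool.Agent.Lib.MP_9d2f5e_lc.Spec

/-!
# Module DSC: few answer patterns
-/

set_option autoImplicit false

open Filter Topology Finset

namespace Pool.Agent.Lib.MP9d2f5e

namespace DSCM

def enc (n : ℕ) (z : ℤ) : Fin (n + 1) := ⟨z.toNat % (n + 1), Nat.mod_lt _ (Nat.succ_pos _)⟩

theorem enc_inj (n : ℕ) (z z' : ℤ) (h0 : 0 ≤ z) (h1 : z < n + 1) (h0' : 0 ≤ z')
    (h1' : z' < n + 1) (h : enc n z = enc n z') : z = z' := by
  have h2 : z.toNat % (n + 1) = z'.toNat % (n + 1) := congrArg Fin.val h
  rw [Nat.mod_eq_of_lt (by omega), Nat.mod_eq_of_lt (by omega)] at h2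
  omega

theorem conv (S : Finset ℤ) (d : ℤ) (hS : ∀ u ∈ S, ∀ w ∈ S, ∀ v, u ≤ v → v ≤ w → v ∈ S) (v : ℤ) :
    v ∈ S ↔ (if h : S.Nonempty then S.min' h else d) ≤ v ∧
      v < (if h : S.Nonempty then S.min' h else d) + S.card := by
  by_cases h : S.Nonempty
  · rw [dif_pos h]
    have hm : S.min' h ≤ S.max' h := S.min'_le _ (S.max'_mem h)
    have h1 : S = Finset.Icc (S.min' h) (S.max' h) := by
      ext u
      rw [Finset.mem_Icc]
      constructor
      · intro hu
        exact ⟨S.min'_le _ hu, S.le_max' _ hu⟩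
      · rintro ⟨h2, h3⟩
        exact hS _ (S.min'_mem h) _ (S.max'_mem h) u h2 h3
    have h2 : (S.card : ℤ) = S.max' h + 1 - S.min' h := by
      have h3 : S.card = (S.max' h + 1 - S.min' h).toNat := by
        conv_lhs => rw [h1]
        rw [Int.card_Icc]
      rw [h3]
      omega
    constructor
    · intro hv
      have h4 := S.min'_le _ hv
      have h5 := S.le_max' _ hv
      constructor
      · exact h4
      · omega
    · rintro ⟨h4, h5⟩
      exact hS _ (S.min'_mem h) _ (S.max'_mem h) v h4 (by omega)
  · rw [dif_neg h]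
    rw [Finset.not_nonempty_iff_eq_empty] at h
    subst h
    simp only [Finset.notMem_empty, Finset.card_empty, Nat.cast_zero, add_zero, false_iff]
    omega

theorem walk (h : ℕ → ℤ) (hh : ∀ t, |h (t + 1) - h t| ≤ 1) (a : ℕ) : ∀ n : ℕ,
    |h (a + n) - h a| ≤ n := by
  intro n
  induction n with
  | zero => simp
  | succ n ih =>
    have h1 := hh (a + n)
    rw [abs_le] at *
    rw [← add_assoc]
    push_cast
    constructor <;> omega

/-- The head position of tape `j` for the block `b`. -/
def hd (M : TM) (x : ℕ → Fin 2) (a s : ℕ) (b : Fin s → Fin 2) (j : Fin M.k) (t : ℕ) : ℤ :=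
  (conf M (glue a s x b) t).head j

/-- The cells of tape `j` scanned in both intervals. -/
def bth (M : TM) (x : ℕ → Fin 2) (a s : ℕ) (b : Fin s → Fin 2) (j : Fin M.k) : Finset ℤ :=
  (Ico a (a + s)).image (hd M x a s b j) ∩ (Ico (a + s) (a + 2 * s)).image (hd M x a s b j)

/-- The left end. -/
noncomputable def lft (M : TM) (x : ℕ → Fin 2) (a s : ℕ) (b : Fin s → Fin 2) (j : Fin M.k) : ℤ :=
  if h : (bth M x a s b j).Nonempty then (bth M x a s b j).min' h
    else (conf M x a).head j + 2 * s + 1

/-- The intermediate configuration. -/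
noncomputable def mid (M : TM) (x : ℕ → Fin 2) (a s : ℕ) (b : Fin s → Fin 2) : Conf M where
  st := (conf M (glue a s x b) (a + s)).st
  tape := fun j v => if v ∈ bth M x a s b j then (conf M (glue a s x b) (a + s)).tape j v
    else (conf M x a).tape j v
  head := (conf M (glue a s x b) (a + s)).head

/-- The data of a block. -/
noncomputable def Phi (M : TM) (x : ℕ → Fin 2) (a s w : ℕ) (b : Fin s → Fin 2) :
    Fin (M.q + 1) × (Fin M.k → Fin (4 * s + 1 + 1)) × (Fin M.k → Fin (4 * s + 1 + 1)) ×
      (Fin M.k → Fin (w + 1)) × (Fin M.k → Fin w → Fin (M.g + 1)) :=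
  ((conf M (glue a s x b) (a + s)).st,
    (fun j => enc (4 * s + 1) ((conf M (glue a s x b) (a + s)).head j - (conf M x a).head j
      + 2 * s)),
    (fun j => enc (4 * s + 1) (lft M x a s b j - (conf M x a).head j + 2 * s)),
    (fun j => enc w ((bth M x a s b j).card)),
    (fun j i => if (i : ℕ) < (bth M x a s b j).card then
      (conf M (glue a s x b) (a + s)).tape j (lft M x a s b j + (i : ℕ)) else 0))

theorem conf_a (hLOC : SpecLOC) (M : TM) (x : ℕ → Fin 2) (a s : ℕ) (b : Fin s → Fin 2) :
    conf M (glue a s x b) a = conf M x a := by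
  refine hLOC.congr M (ini M) _ _ a ?_
  intro i hi
  unfold glue
  rw [dif_neg (by omega)]

theorem mem_bth (hLOC : SpecLOC) (hRNG : SpecRNG) (M : TM) (x : ℕ → Fin 2) (a s : ℕ)
    (b : Fin s → Fin 2) (j : Fin M.k) (v : ℤ) : v ∈ bth M x a s b j ↔
    lft M x a s b j ≤ v ∧ v < lft M x a s b j + (bth M x a s b j).card := by
  refine conv _ _ ?_ v
  intro u hu w hw v h1 h2
  have hm : ∀ t, |hd M x a s b j (t + 1) - hd M x a s b j t| ≤ 1 := fun t =>
    hLOC.move M (ini M) (glue a s x b) t j
  unfold bth at *
  rw [Finset.mem_inter] at *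
  exact ⟨hRNG _ _ _ hm u hu.1 w hw.1 v h1 h2, hRNG _ _ _ hm u hu.2 w hw.2 v h1 h2⟩

theorem mid_eq (hLOC : SpecLOC) (hRNG : SpecRNG) (M : TM) (x : ℕ → Fin 2) (a s w : ℕ)
    (b b' : Fin s → Fin 2)
    (hb : ov M (glue a s x b) a s ≤ w) (hb' : ov M (glue a s x b') a s ≤ w)
    (h : Phi M x a s w b = Phi M x a s w b') : mid M x a s b = mid M x a s b' := by
  have hst : (conf M (glue a s x b) (a + s)).st = (conf M (glue a s x b') (a + s)).st :=
    congrArg Prod.fst h
  have h2 := congrArg Prod.snd h
  have hp : ∀ j, enc (4 * s + 1) ((conf M (glue a s x b) (a + s)).head j - (conf M x a).head j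
      + 2 * s) = enc (4 * s + 1) ((conf M (glue a s x b') (a + s)).head j - (conf M x a).head j
      + 2 * s) := fun j => congrFun (congrArg Prod.fst h2) j
  have h3 := congrArg Prod.snd h2
  have hl : ∀ j, enc (4 * s + 1) (lft M x a s b j - (conf M x a).head j + 2 * s) =
      enc (4 * s + 1) (lft M x a s b' j - (conf M x a).head j + 2 * s) :=
    fun j => congrFun (congrArg Prod.fst h3) j
  have h4 := congrArg Prod.snd h3
  have hc : ∀ j, enc w ((bth M x a s b j).card) = enc w ((bth M x a s b' j).card) :=
    fun j => congrFun (congrArg Prod.fst h4) j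
  have ht : ∀ j (i : Fin w), (if (i : ℕ) < (bth M x a s b j).card then
      (conf M (glue a s x b) (a + s)).tape j (lft M x a s b j + (i : ℕ)) else 0) =
      (if (i : ℕ) < (bth M x a s b' j).card then
      (conf M (glue a s x b') (a + s)).tape j (lft M x a s b' j + (i : ℕ)) else 0) :=
    fun j i => congrFun (congrFun (congrArg Prod.snd h4) j) i
  -- cardinalities
  have hcw : ∀ (c : Fin s → Fin 2), ov M (glue a s x c) a s ≤ w → ∀ j,
      (bth M x a s c j).card ≤ w := by
    intro c hc j
    refine le_trans ?_ hc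
    exact Finset.single_le_sum (f := fun j => meet (fun t => (conf M (glue a s x c) t).head j) a s)
      (fun _ _ => Nat.zero_le _) (Finset.mem_univ j)
  have hceq : ∀ j, (bth M x a s b j).card = (bth M x a s b' j).card := by
    intro j
    have h5 := hcw b hb j
    have h6 := hcw b' hb' j
    have h7 := enc_inj w _ _ (by positivity) (by omega) (by positivity) (by omega) (hc j)
    exact_mod_cast h7
  -- positions
  have hw : ∀ (c : Fin s → Fin 2) j n, |hd M x a s c j (a + n) - (conf M x a).head j| ≤ n := by
    intro c j n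
    have h5 := walk (hd M x a s c j) (fun t => hLOC.move M (ini M) (glue a s x c) t j) a n
    have h6 : hd M x a s c j a = (conf M x a).head j := by
      unfold hd
      rw [conf_a hLOC]
    rw [h6] at h5
    exact h5
  have hhead : ∀ j, (conf M (glue a s x b) (a + s)).head j =
      (conf M (glue a s x b') (a + s)).head j := by
    intro j
    have h5 := hw b j s
    have h6 := hw b' j s
    unfold hd at h5 h6
    rw [abs_le] at h5 h6
    have h7 := enc_inj (4 * s + 1) _ _ (by omega) (by push_cast; omega) (by omega)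
      (by push_cast; omega) (hp j)
    omega
  have hlb : ∀ (c : Fin s → Fin 2) j, 0 ≤ lft M x a s c j - (conf M x a).head j + 2 * s ∧
      lft M x a s c j - (conf M x a).head j + 2 * s < 4 * s + 2 := by
    intro c j
    unfold lft
    by_cases h : (bth M x a s c j).Nonempty
    · rw [dif_pos h]
      have h5 := Finset.min'_mem _ h
      have h6 : (bth M x a s c j).min' h ∈ (Ico a (a + s)).image (hd M x a s c j) :=
        (Finset.mem_inter.mp h5).1
      rw [Finset.mem_image] at h6
      obtain ⟨t, ht, hte⟩ := h6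
      rw [Finset.mem_Ico] at ht
      have h7 := hw c j (t - a)
      rw [show a + (t - a) = t by omega, hte, abs_le] at h7
      have h8 : ((t - a : ℕ) : ℤ) ≤ s := by
        have : t - a ≤ s := by omega
        exact_mod_cast this
      constructor <;> omega
    · rw [dif_neg h]
      constructor <;> omega
  have hleq : ∀ j, lft M x a s b j = lft M x a s b' j := by
    intro j
    obtain ⟨h5, h6⟩ := hlb b j
    obtain ⟨h7, h8⟩ := hlb b' j
    have h9 := enc_inj (4 * s + 1) _ _ h5 (by push_cast; omega) h7 (by push_cast; omega) (hl j)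
    omega
  -- the sets
  have hset : ∀ j v, v ∈ bth M x a s b j ↔ v ∈ bth M x a s b' j := by
    intro j v
    rw [mem_bth hLOC hRNG, mem_bth hLOC hRNG, hleq j, hceq j]
  have htape : ∀ j v, v ∈ bth M x a s b j → (conf M (glue a s x b) (a + s)).tape j v =
      (conf M (glue a s x b') (a + s)).tape j v := by
    intro j v hv
    rw [mem_bth hLOC hRNG] at hv
    have h5 := hcw b hb j
    have hi : (v - lft M x a s b j).toNat < (bth M x a s b j).card := by omega
    have h6 := ht j ⟨(v - lft M x a s b j).toNat, by omega⟩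
    rw [if_pos hi, if_pos (by rw [← hceq j]; exact hi)] at h6
    have h7 : lft M x a s b j + ((v - lft M x a s b j).toNat : ℤ) = v := by omega
    have h8 : lft M x a s b' j + ((v - lft M x a s b j).toNat : ℤ) = v := by
      rw [← hleq j]
      exact h7
    simp only at h6
    rw [h7, h8] at h6
    exact h6
  unfold mid
  congr 1
  · funext j v
    by_cases hv : v ∈ bth M x a s b j
    · rw [if_pos hv, if_pos ((hset j v).mp hv)]
      exact htape j v hv
    · rw [if_neg hv, if_neg (fun h => hv ((hset j v).mpr h))]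
  · funext j
    exact hhead j

theorem run_mid (hLOC : SpecLOC) (M : TM) (x : ℕ → Fin 2) (a s : ℕ) (b : Fin s → Fin 2)
    (r : ℕ) (hr : r < s) : (conf M (glue a s x b) (a + s + r)).st =
      (iter M (mid M x a s b) (fun n => x (a + s + n)) r).st := by
  have hadd : ∀ i, conf M (glue a s x b) (a + s + i) =
      iter M (conf M (glue a s x b) (a + s)) (fun n => x (a + s + n)) i := by
    intro i
    have h1 := hLOC.add M (ini M) (glue a s x b) i (a + s)
    have h2 : (fun n => glue a s x b (a + s + n)) = (fun n => x (a + s + n)) := by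
      funext n
      unfold glue
      rw [dif_neg (by omega)]
    rw [h2] at h1
    exact h1
  have hpre : ∀ i, conf M (glue a s x b) (a + i) =
      iter M (conf M x a) (fun n => glue a s x b (a + n)) i := by
    intro i
    have h1 := hLOC.add M (ini M) (glue a s x b) i a
    have h2 : iter M (ini M) (glue a s x b) a = conf M x a := conf_a hLOC M x a s b
    rw [h2] at h1
    exact h1
  rw [hadd r]
  refine (hLOC.det M (conf M (glue a s x b) (a + s)) (mid M x a s b) (fun n => x (a + s + n)) s
    rfl rfl ?_ r hr.le).1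
  intro i hi j
  have hJ : (iter M (conf M (glue a s x b) (a + s)) (fun n => x (a + s + n)) i).head j ∈
      (Ico (a + s) (a + 2 * s)).image (hd M x a s b j) := by
    rw [Finset.mem_image]
    refine ⟨a + s + i, by rw [Finset.mem_Ico]; omega, ?_⟩
    unfold hd
    rw [hadd i]
  set v := (iter M (conf M (glue a s x b) (a + s)) (fun n => x (a + s + n)) i).head j with hv
  change _ = (if v ∈ bth M x a s b j then (conf M (glue a s x b) (a + s)).tape j v
    else (conf M x a).tape j v)
  by_cases hb : v ∈ bth M x a s b j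
  · rw [if_pos hb]
  · rw [if_neg hb]
    have hI : v ∉ (Ico a (a + s)).image (hd M x a s b j) := fun h =>
      hb (Finset.mem_inter.mpr ⟨h, hJ⟩)
    rw [hpre s]
    refine hLOC.unch M (conf M x a) _ s j v ?_
    intro i hi he
    refine hI (Finset.mem_image.mpr ⟨a + i, by rw [Finset.mem_Ico]; omega, ?_⟩)
    unfold hd
    rw [hpre i]
    exact he

end DSCM

open DSCM in
theorem specDSC (hLOC : SpecLOC) (hRNG : SpecRNG) : SpecDSC := by
  intro M x a s w _
  refine ⟨_, inferInstance, Phi M x a s w, ?_, ?_⟩
  · rw [Fintype.card_prod, Fintype.card_prod, Fintype.card_prod, Fintype.card_prod]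
    simp only [Fintype.card_fin, Fintype.card_fun]
    unfold Db
    apply le_of_eq
    push_cast
    rw [show (4 * (s : ℝ) + 1 + 1) = 4 * s + 2 by ring]
    rw [mul_pow, mul_pow, ← pow_mul, ← pow_mul]
    ring
  · intro b b' hb hb' h r hr
    rw [run_mid hLOC M x a s b r hr, run_mid hLOC M x a s b' r hr,
      mid_eq hLOC hRNG M x a s w b b' hb hb' h]

end Pool.Agent.Lib.MP9d2f5e
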