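import Pool.Agent.Lib.MP_9d2f5e_lc.Spec

/-!
# MP_9d2f5e, module FIN (helper53): the average of `|P_n - 1/2|` tends to `0`
-/

set_option autoImplicit false

open Filter Topology Finset

namespace Pool.Agent.Lib.MP9d2f5e

namespace FINM

/-- the same machine with other accepting sets -/
def chg (M : TM) (F' : ℕ → Set (Fin (M.q + 1))) : TM := { M with F := F' }

/-- configurations of `M` as configurations of `chg M F'` -/
def cv (M : TM) (F' : ℕ → Set (Fin (M.q + 1))) (c : Conf M) : Conf (chg M F') := ⟨c.st, c.tape, c.head⟩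

theorem foldl_cv (M : TM) (F' : ℕ → Set (Fin (M.q + 1))) (w : List (Fin 2)) (c : Conf M) :
    w.foldl (step (chg M F')) (cv M F' c) = cv M F' (w.foldl (step M) c) := by
  induction w generalizing c with
  | nil => rfl
  | cons a w ih =>
    rw [List.foldl_cons, List.foldl_cons, ← ih]
    rfl

theorem acc_chg (M : TM) (F' : ℕ → Set (Fin (M.q + 1))) (w : List (Fin 2)) :
    Acc (chg M F') w ↔ (w.foldl (step M) (ini M)).st ∈ F' w.length := by
  have h := foldl_cv M F' w (ini M)
  have h2 : cv M F' (ini M) = ini (chg M F') := rfl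
  rw [h2] at h
  unfold Acc
  rw [h]
  rfl

theorem ind_not (p : Prop) : ind (¬ p) = 1 - ind p := by
  unfold ind
  by_cases h : p
  · rw [if_neg (not_not.2 h), if_pos h]; norm_num
  · rw [if_pos h, if_neg h]; norm_num

theorem ind_congr {p q : Prop} (h : p ↔ q) : ind p = ind q := by
  rw [propext h]

open Classical in
/-- the best accepting sets -/
noncomputable def best (M : TM) (n : ℕ) : Set (Fin (M.q + 1)) := if 1 / 2 ≤ prop M n then M.F n else (M.F n)ᶜ

theorem prop_best (M : TM) (n : ℕ) : prop (chg M (best M)) n - 1 / 2 = |prop M n - 1 / 2| := by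
  by_cases h : 1 / 2 ≤ prop M n
  · have hb : best M n = M.F n := by
      unfold best
      rw [if_pos h]
    have h1 : prop (chg M (best M)) n = prop M n := by
      unfold prop
      congr 1
      apply Finset.sum_congr rfl
      intro w _
      apply ind_congr
      rw [acc_chg, List.length_ofFn, hb]
      unfold Acc
      rw [List.length_ofFn]
    rw [h1, abs_of_nonneg (by linarith)]
  · have hb : best M n = (M.F n)ᶜ := by
      unfold best
      rw [if_neg h]
    have h1 : prop (chg M (best M)) n = 1 - prop M n := by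
      have h2 : ∀ w : Fin n → Fin 2, ind (Acc (chg M (best M)) (List.ofFn w) ↔ List.ofFn w ∈ Lang) =
          1 - ind (Acc M (List.ofFn w) ↔ List.ofFn w ∈ Lang) := by
        intro w
        rw [← ind_not]
        apply ind_congr
        rw [acc_chg, List.length_ofFn, hb, Set.mem_compl_iff]
        unfold Acc
        rw [List.length_ofFn]
        tauto
      unfold prop
      rw [Finset.sum_congr rfl (fun w _ => h2 w), Finset.sum_sub_distrib, Finset.sum_const,
        Finset.card_univ, Fintype.card_fun, Fintype.card_fin, Fintype.card_fin, nsmul_eq_mul, mul_one,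
        sub_div]
      congr 1
      push_cast
      exact div_self (by positivity)
    rw [h1, abs_of_neg (by linarith [not_le.1 h])]
    ring

theorem Ex_sum (N : ℕ) (s : Finset ℕ) (f : ℕ → (ℕ → Fin 2) → ℝ) :
    Ex N (fun x => ∑ n ∈ s, f n x) = ∑ n ∈ s, Ex N (f n) := by
  unfold Ex
  rw [Finset.sum_comm, Finset.sum_div]

end FINM

open FINM in
theorem specFIN (hPRJ : SpecPRJ) (hASY : SpecASY) : SpecFIN := by
  intro M
  rw [Metric.tendsto_atTop]
  intro ε hε
  obtain ⟨N₀, hN₀⟩ := hASY (chg M (best M)) (ε / 8) (by linarith)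
  refine ⟨max N₀ 1, fun N hN => ?_⟩
  have hN1 : N₀ ≤ N := le_trans (le_max_left _ _) hN
  have hN2 : 1 ≤ N := le_trans (le_max_right _ _) hN
  have hNpos : (0 : ℝ) < N := by exact_mod_cast hN2
  have h1 := hN₀ N hN1
  rw [Ex_sum] at h1
  have h2 : ∀ n ∈ range N, Ex N (fun x => ind (Agree (chg M (best M)) x n)) =
      |prop M n - 1 / 2| + 1 / 2 := by
    intro n hn
    rw [mem_range] at hn
    rw [hPRJ (chg M (best M)) N n hn.le]
    have h3 := prop_best M n
    unfold prop at h3 ⊢
    linarith
  rw [Finset.sum_congr rfl h2, Finset.sum_add_distrib, Finset.sum_const, card_range, nsmul_eq_mul] at h1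
  have h4 : 0 ≤ ∑ n ∈ range N, |prop M n - 1 / 2| := Finset.sum_nonneg fun _ _ => abs_nonneg _
  rw [Real.dist_eq, sub_zero, abs_of_nonneg (by positivity), div_lt_iff₀ hNpos]
  nlinarith

end Pool.Agent.Lib.MP9d2f5e
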