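import Pool.Agent.Lib.MP_9d2f5e_lc.Spec

/-!
# Module GLU: averaging over a block
-/

set_option autoImplicit false

open Filter Topology Finset

namespace Pool.Agent.Lib.MP9d2f5e

namespace GLUM

/-- exchange of the block of the word with a word of length `s` -/
def sw (N a s : ℕ) (has : a + s ≤ N) (p : (Fin N → Fin 2) × (Fin s → Fin 2)) :
    (Fin N → Fin 2) × (Fin s → Fin 2) :=
  (fun i => if h : a ≤ (i : ℕ) ∧ (i : ℕ) < a + s then p.2 ⟨(i : ℕ) - a, by omega⟩ else p.1 i,
    fun j => p.1 ⟨a + j, by omega⟩)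

lemma sw_invol (N a s : ℕ) (has : a + s ≤ N) : Function.Involutive (sw N a s has) := by
  intro p
  apply Prod.ext
  · funext i
    simp only [sw]
    split_ifs with h
    · refine congrArg p.1 (Fin.ext ?_)
      change a + ((i : ℕ) - a) = i
      omega
    · rfl
  · funext j
    simp only [sw]
    have h : a ≤ a + (j : ℕ) ∧ a + (j : ℕ) < a + s := ⟨by omega, by have := j.2; omega⟩
    rw [dif_pos h]
    refine congrArg p.2 (Fin.ext ?_)
    change a + (j : ℕ) - a = j
    omega

lemma glue_eq (N a s : ℕ) (has : a + s ≤ N) (x : Fin N → Fin 2) (b : Fin s → Fin 2) :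
    glue a s (X x) b = X (sw N a s has (x, b)).1 := by
  funext t
  unfold glue X sw
  by_cases ht : t < N
  · by_cases h : a ≤ t ∧ t < a + s
    · rw [dif_pos h, dif_pos ht]
      simp only
      rw [dif_pos h]
    · rw [dif_neg h, dif_pos ht, dif_pos ht]
      simp only
      rw [dif_neg h]
  · have h : ¬ (a ≤ t ∧ t < a + s) := by omega
    rw [dif_neg h, dif_neg ht, dif_neg ht]

end GLUM

open GLUM in
theorem specGLU : SpecGLU := by
  intro N a s f has
  unfold Ex
  congr 1
  rw [← Finset.sum_div]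
  have h1 : ∑ x : Fin N → Fin 2, ∑ b : Fin s → Fin 2, f (glue a s (X x) b) =
      ∑ p : (Fin N → Fin 2) × (Fin s → Fin 2), f (X (sw N a s has p).1) := by
    rw [Fintype.sum_prod_type]
    refine Finset.sum_congr rfl fun x _ => Finset.sum_congr rfl fun b _ => ?_
    rw [glue_eq N a s has]
  have h2 : ∑ p : (Fin N → Fin 2) × (Fin s → Fin 2), f (X (sw N a s has p).1) =
      ∑ p : (Fin N → Fin 2) × (Fin s → Fin 2), f (X p.1) :=
    Equiv.sum_comp (sw_invol N a s has).toPerm (fun p => f (X p.1))
  rw [h1, h2, Fintype.sum_prod_type]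
  simp only [Finset.sum_const, Finset.card_univ, Fintype.card_fun, Fintype.card_fin, nsmul_eq_mul]
  rw [← Finset.mul_sum]
  have h3 : (2 : ℝ) ^ s ≠ 0 := by positivity
  push_cast
  field_simp

end Pool.Agent.Lib.MP9d2f5e
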