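import Pool.Agent.Lib.MP_9d2f5e_lc.Spec

/-!
# Module IAR: the language of the two-state XOR array
-/

set_option autoImplicit false

open Filter Topology Finset

namespace Pool.Agent.Lib.MP9d2f5e

namespace IARM

/-- the impulse response -/
def b (i m : ℕ) : ℕ := if i ≤ m ∧ (m - i) % 2 = 0 then Nat.choose (m + 1) ((m - i) / 2) else 0

/-- the input -/
def z (w : List (Fin 2)) (t : ℕ) : ℕ := ((w[t]?).getD 0 : Fin 2)

/-- the state of cell `i` after `t` steps -/
def S (w : List (Fin 2)) (i t : ℕ) : ℕ := ∑ m ∈ range t, b i m * z w (t - 1 - m)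

theorem b_succ (i m : ℕ) : b (i + 1) (m + 1) = b i m + b (i + 2) m := by
  unfold b
  by_cases h : i ≤ m ∧ (m - i) % 2 = 0
  · obtain ⟨k, hk⟩ : ∃ k, m = i + 2 * k := ⟨(m - i) / 2, by omega⟩
    subst hk
    have e1 : (i + 2 * k + 1 - (i + 1)) / 2 = k := by omega
    have e2 : (i + 2 * k - i) / 2 = k := by omega
    have c1 : i + 1 ≤ i + 2 * k + 1 ∧ (i + 2 * k + 1 - (i + 1)) % 2 = 0 := by omega
    rw [if_pos c1, if_pos h, e1, e2]
    rcases k with _ | k
    · have c2 : ¬ (i + 2 ≤ i + 2 * 0 ∧ (i + 2 * 0 - (i + 2)) % 2 = 0) := by omega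
      rw [if_neg c2, Nat.choose_zero_right, Nat.choose_zero_right]
    · have c2 : i + 2 ≤ i + 2 * (k + 1) ∧ (i + 2 * (k + 1) - (i + 2)) % 2 = 0 := by omega
      have e3 : (i + 2 * (k + 1) - (i + 2)) / 2 = k := by omega
      rw [if_pos c2, e3, Nat.choose_succ_succ]
      ring
  · have c1 : ¬ (i + 1 ≤ m + 1 ∧ (m + 1 - (i + 1)) % 2 = 0) := by omega
    have c2 : ¬ (i + 2 ≤ m ∧ (m - (i + 2)) % 2 = 0) := by omega
    rw [if_neg h, if_neg c1, if_neg c2]

theorem b_zero (m : ℕ) : b 0 (m + 1) ≡ b 1 m [MOD 2] := by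
  unfold b
  by_cases h : (m + 1) % 2 = 0
  · obtain ⟨k, hk⟩ : ∃ k, m = 2 * k + 1 := ⟨(m - 1) / 2, by omega⟩
    subst hk
    have c1 : 0 ≤ 2 * k + 1 + 1 ∧ (2 * k + 1 + 1 - 0) % 2 = 0 := by omega
    have c2 : 1 ≤ 2 * k + 1 ∧ (2 * k + 1 - 1) % 2 = 0 := by omega
    have e1 : (2 * k + 1 + 1 - 0) / 2 = k + 1 := by omega
    have e2 : (2 * k + 1 - 1) / 2 = k := by omega
    rw [if_pos c1, if_pos c2, e1, e2, Nat.choose_succ_succ]
    have h2 : 2 ∣ (2 * k + 1 + 1).choose (k + 1) := by
      have := Nat.two_dvd_centralBinom_succ k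
      rw [Nat.centralBinom_eq_two_mul_choose] at this
      exact this
    obtain ⟨c, hc⟩ := h2
    have h3 : (2 * k + 1 + 1).choose k + (2 * k + 1 + 1).choose (k + 1) ≡
        (2 * k + 1 + 1).choose k [MOD 2] := by
      rw [hc]
      unfold Nat.ModEq
      omega
    exact h3
  · have c1 : ¬ (0 ≤ m + 1 ∧ (m + 1 - 0) % 2 = 0) := by omega
    have c2 : ¬ (1 ≤ m ∧ (m - 1) % 2 = 0) := by omega
    rw [if_neg c1, if_neg c2]

theorem S_succ (w : List (Fin 2)) (i t : ℕ) :
    S w i (t + 1) = b i 0 * z w t + ∑ m ∈ range t, b i (m + 1) * z w (t - 1 - m) := by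
  unfold S
  rw [Finset.sum_range_succ', add_comm]
  congr 1
  refine Finset.sum_congr rfl fun m hm => ?_
  have : t + 1 - 1 - (m + 1) = t - 1 - m := by omega
  rw [this]

theorem main (w : List (Fin 2)) (t : ℕ) :
    ((iaStep w)^[t] (0, fun _ => 0)).1 = t ∧
    ∀ i, ((((iaStep w)^[t] (0, fun _ => 0)).2 i : Fin 2) : ℕ) = S w i t % 2 := by
  induction t with
  | zero =>
    refine ⟨rfl, fun i => ?_⟩
    simp [S]
  | succ t ih =>
    obtain ⟨h1, h2⟩ := ih
    rw [Function.iterate_succ_apply']
    set p := (iaStep w)^[t] (0, fun _ => 0) with hp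
    refine ⟨by simp [iaStep, h1], fun i => ?_⟩
    rcases i with _ | i
    · have e : (iaStep w p).2 0 = p.2 1 + (w[p.1]?).getD 0 := by simp [iaStep]
      rw [e, Fin.val_add, h2 1, h1, S_succ]
      have hb : b 0 0 = 1 := by simp [b]
      rw [hb, one_mul]
      have hs : ∑ m ∈ range t, b 0 (m + 1) * z w (t - 1 - m) ≡ S w 1 t [MOD 2] := by
        unfold S
        refine Nat.ModEq.sum fun m _ => ?_
        exact (b_zero m).mul_right _
      have hs' : (∑ m ∈ range t, b 0 (m + 1) * z w (t - 1 - m)) % 2 = S w 1 t % 2 := hs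
      have hz : ((w[t]?).getD 0 : Fin 2).val = z w t := rfl
      rw [hz]
      omega
    · have e : (iaStep w p).2 (i + 1) = p.2 i + p.2 (i + 2) := by simp [iaStep]
      rw [e, Fin.val_add, h2 i, h2 (i + 2), S_succ]
      have hb : b (i + 1) 0 = 0 := by simp [b]
      rw [hb, zero_mul, zero_add]
      have hs : ∑ m ∈ range t, b (i + 1) (m + 1) * z w (t - 1 - m) = S w i t + S w (i + 2) t := by
        unfold S
        rw [← Finset.sum_add_distrib]
        refine Finset.sum_congr rfl fun m _ => ?_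
        rw [b_succ, add_mul]
      rw [hs]
      omega

theorem z_len (w : List (Fin 2)) : z w w.length = 0 := by
  unfold z
  simp

open Classical in
theorem S_end (hCAT : SpecCAT) (w : List (Fin 2)) :
    S w 0 (w.length + 1) ≡ par w [MOD 2] := by
  set n := w.length with hn
  -- reduction of the coefficients
  have h1 : S w 0 (n + 1) ≡
      ∑ m ∈ (range (n + 1)).filter (fun m => ∃ j, m + 2 = 2 ^ (j + 1)), z w (n - m) [MOD 2] := by
    unfold S
    rw [Finset.sum_filter]
    refine Nat.ModEq.sum fun m _ => ?_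
    have e : n + 1 - 1 - m = n - m := by omega
    rw [e]
    unfold b
    by_cases hm : m % 2 = 0
    · obtain ⟨k, hk⟩ : ∃ k, m = 2 * k := ⟨m / 2, by omega⟩
      subst hk
      have c1 : 0 ≤ 2 * k ∧ (2 * k - 0) % 2 = 0 := by omega
      have e1 : (2 * k - 0) / 2 = k := by omega
      rw [if_pos c1, e1]
      have hiff : (∃ j, 2 * k + 2 = 2 ^ (j + 1)) ↔ ∃ j, k + 1 = 2 ^ j := by
        constructor
        · rintro ⟨j, hj⟩
          exact ⟨j, by rw [pow_succ] at hj; omega⟩
        · rintro ⟨j, hj⟩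
          exact ⟨j, by rw [pow_succ]; omega⟩
      by_cases hc : ∃ j, k + 1 = 2 ^ j
      · rw [if_pos (hiff.2 hc)]
        have := (hCAT k).2 hc
        have h3 : (2 * k + 1).choose k ≡ 1 [MOD 2] := Nat.odd_iff.1 this
        simpa using h3.mul_right (z w (n - 2 * k))
      · rw [if_neg (fun h => hc (hiff.1 h))]
        have h3 : (2 * k + 1).choose k ≡ 0 [MOD 2] := by
          have h4 : ¬ Odd ((2 * k + 1).choose k) := fun h => hc ((hCAT k).1 h)
          rw [Nat.not_odd_iff] at h4
          exact h4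
        simpa using h3.mul_right (z w (n - 2 * k))
    · have c1 : ¬ (0 ≤ m ∧ (m - 0) % 2 = 0) := by omega
      have c2 : ¬ ∃ j, m + 2 = 2 ^ (j + 1) := by
        rintro ⟨j, hj⟩
        rw [pow_succ] at hj
        omega
      rw [if_neg c1, if_neg c2, zero_mul]
  refine h1.trans ?_
  -- the other side
  have h2 : par w = ∑ m ∈ ((range n).filter (fun j => 2 ^ (j + 2) ≤ n + 2)).image
      (fun j => 2 ^ (j + 2) - 2), z w (n - m) := by
    rw [Finset.sum_image]
    · unfold par
      rw [← hn, Finset.sum_filter]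
      refine Finset.sum_congr rfl fun j _ => ?_
      by_cases hj : 2 ^ (j + 2) ≤ n + 2
      · rw [if_pos hj, if_pos hj]
        have h3 : 2 ≤ 2 ^ (j + 2) := by
          have : 0 < 2 ^ (j + 1) := by positivity
          rw [pow_succ]
          omega
        have e : n - (2 ^ (j + 2) - 2) = n + 2 - 2 ^ (j + 2) := by omega
        rw [e]
        unfold z
        rw [List.getD_eq_getElem?_getD]
      · rw [if_neg hj, if_neg hj]
    · intro j _ j' _ h
      have h3 : ∀ j : ℕ, 2 ≤ 2 ^ (j + 2) := by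
        intro j
        have : 0 < 2 ^ (j + 1) := by positivity
        rw [pow_succ]
        omega
      have a1 := h3 j
      have a2 := h3 j'
      have h4 : 2 ^ (j + 2) = 2 ^ (j' + 2) := by
        simp only at h
        omega
      have := Nat.pow_right_injective (le_refl 2) h4
      omega
  have h3 : ∑ m ∈ ((range n).filter (fun j => 2 ^ (j + 2) ≤ n + 2)).image
      (fun j => 2 ^ (j + 2) - 2), z w (n - m) =
      ∑ m ∈ (range (n + 1)).filter (fun m => ∃ j, m + 2 = 2 ^ (j + 1)), z w (n - m) := by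
    refine Finset.sum_subset ?_ ?_
    · intro m hm
      rw [Finset.mem_image] at hm
      obtain ⟨j, hj, rfl⟩ := hm
      rw [Finset.mem_filter] at hj
      have a1 : 2 ≤ 2 ^ (j + 2) := by
        have : 0 < 2 ^ (j + 1) := by positivity
        rw [pow_succ]
        omega
      rw [Finset.mem_filter, Finset.mem_range]
      refine ⟨by omega, j + 1, ?_⟩
      have : j + 1 + 1 = j + 2 := rfl
      rw [this]
      omega
    · intro m hm hm'
      rw [Finset.mem_filter, Finset.mem_range] at hm
      obtain ⟨hm1, j, hj⟩ := hm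
      rcases j with _ | j
      · have : m = 0 := by
          rw [zero_add, pow_one] at hj
          omega
        subst this
        rw [Nat.sub_zero, hn]
        exact z_len w
      · exfalso
        apply hm'
        rw [Finset.mem_image]
        refine ⟨j, ?_, ?_⟩
        · rw [Finset.mem_filter, Finset.mem_range]
          have e : j + 1 + 1 = j + 2 := rfl
          rw [e] at hj
          have a1 : j + 2 < 2 ^ (j + 2) := Nat.lt_two_pow_self
          constructor
          · omega
          · omega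
        · have e : j + 1 + 1 = j + 2 := rfl
          rw [e] at hj
          show 2 ^ (j + 2) - 2 = m
          omega
  rw [h2, h3]

end IARM

theorem specIAR (hCAT : SpecCAT) : SpecIAR := by
  intro w
  unfold iaAcc
  have h := (IARM.main w (w.length + 1)).2 0
  have h2 : IARM.S w 0 (w.length + 1) % 2 = par w % 2 := IARM.S_end hCAT w
  rw [h2] at h
  show _ ↔ Odd (par w)
  rw [Nat.odd_iff, ← h]
  constructor
  · intro h3
    rw [h3]
    rfl
  · intro h3
    exact Fin.ext h3

end Pool.Agent.Lib.MP9d2f5e
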