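import Pool.Agent.Lib.MP_9d2f5e_lc.Spec

/-!
# MP_9d2f5e_lc, module INJ: the answers determine the input
-/

set_option autoImplicit false

open Finset

namespace Pool.Agent.Lib.MP9d2f5e

theorem specINJ : SpecINJ := by
  intro k a x x' hk hout hodd
  by_contra hne
  obtain ⟨t₀, ht₀⟩ := Function.ne_iff.1 hne
  -- the largest time at which they differ
  have hin : ∀ t, x t ≠ x' t → a + 3 ≤ t ∧ t < a + 2 ^ k := by
    intro t ht
    by_contra hcon
    exact ht (hout t (by omega))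
  obtain ⟨p, hp, hmax⟩ : ∃ p, x p ≠ x' p ∧ ∀ t, p < t → x t = x' t := by
    have hS : ((range (a + 2 ^ k)).filter fun t => x t ≠ x' t).Nonempty :=
      ⟨t₀, mem_filter.2 ⟨mem_range.2 (hin t₀ ht₀).2, ht₀⟩⟩
    refine ⟨_, (mem_filter.1 (Finset.max'_mem _ hS)).2, fun t ht => ?_⟩
    by_contra h
    have hm : t ∈ (range (a + 2 ^ k)).filter (fun t => x t ≠ x' t) :=
      mem_filter.2 ⟨mem_range.2 (hin t h).2, h⟩
    have := Finset.le_max' _ t hm
    omega
  obtain ⟨hp1, hp2⟩ := hin p hp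
  set s := 2 ^ k with hs
  have hks : k < s := Nat.lt_two_pow_self
  have hn : a + s + (p - a - 2) = p + s - 2 := by omega
  have h := hodd (p - a - 2) (by omega) (by omega)
  rw [hn] at h
  have hj0 : k - 2 ∈ range (p + s - 2) := mem_range.2 (by omega)
  have e2 : 2 ^ (k - 2 + 2) = s := by rw [Nat.sub_add_cancel hk]
  unfold Y at h
  rw [← Finset.add_sum_erase _ _ hj0, ← Finset.add_sum_erase (range (p + s - 2)) _ hj0, e2,
    if_pos (by omega), if_pos (by omega), show p + s - 2 + 2 - s = p by omega] at h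
  have hrest : ∑ j ∈ (range (p + s - 2)).erase (k - 2),
      (if 2 ^ (j + 2) ≤ p + s - 2 + 2 then ((x (p + s - 2 + 2 - 2 ^ (j + 2)) : Fin 2) : ℕ) else 0) =
      ∑ j ∈ (range (p + s - 2)).erase (k - 2),
      (if 2 ^ (j + 2) ≤ p + s - 2 + 2 then ((x' (p + s - 2 + 2 - 2 ^ (j + 2)) : Fin 2) : ℕ) else 0) := by
    refine Finset.sum_congr rfl fun j hj => ?_
    have hjk : j ≠ k - 2 := (mem_erase.1 hj).1
    split_ifs with hle
    · have hx : x (p + s - 2 + 2 - 2 ^ (j + 2)) = x' (p + s - 2 + 2 - 2 ^ (j + 2)) := by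
        rcases lt_or_gt_of_ne hjk with hlt | hgt
        · apply hmax
          have : 2 ^ (j + 2) < 2 ^ k := Nat.pow_lt_pow_right (by norm_num) (by omega)
          omega
        · apply hout
          have : 2 ^ (k + 1) ≤ 2 ^ (j + 2) := Nat.pow_le_pow_right (by norm_num) (by omega)
          rw [pow_succ] at this
          omega
      rw [hx]
    · rfl
  rw [hrest] at h
  have h01 : ((x p : ℕ) = 0 ∧ (x' p : ℕ) = 1) ∨ ((x p : ℕ) = 1 ∧ (x' p : ℕ) = 0) := by
    have h1 := (x p).2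
    have h2 := (x' p).2
    have h3 : (x p : ℕ) ≠ (x' p : ℕ) := fun h => hp (Fin.ext h)
    omega
  rw [Nat.odd_iff, Nat.odd_iff] at h
  rcases h01 with ⟨e, e'⟩ | ⟨e, e'⟩ <;> rw [e, e'] at h <;> omega

end Pool.Agent.Lib.MP9d2f5e
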