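import Pool.Agent.Lib.MP_9d2f5e_lc.Spec

/-!
# LOC: basic facts on the computations of a real-time Turing machine
-/

set_option autoImplicit false

open Filter Topology Finset

namespace Pool.Agent.Lib.MP9d2f5e

namespace LOCM

lemma iter_succ (M : TM) (c : Conf M) (z : ℕ → Fin 2) (t : ℕ) :
    iter M c z (t + 1) = step M (iter M c z t) (z t) := rfl

lemma det_aux (M : TM) (c c' : Conf M) (z : ℕ → Fin 2) (s : ℕ) (hst : c.st = c'.st)
    (hhd : c.head = c'.head)
    (hs : ∀ i < s, ∀ j, c.tape j ((iter M c z i).head j) = c'.tape j ((iter M c z i).head j)) :
    ∀ i ≤ s, (iter M c z i).st = (iter M c' z i).st ∧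
      (iter M c z i).head = (iter M c' z i).head ∧
      (∀ j u, c.tape j u = c'.tape j u → (iter M c z i).tape j u = (iter M c' z i).tape j u) := by
  intro i
  induction i with
  | zero =>
    intro _
    exact ⟨hst, hhd, fun j u h => h⟩
  | succ i ih =>
    intro hi
    obtain ⟨h1, h2, h3⟩ := ih (by omega)
    have h4 : (fun j => (iter M c z i).tape j ((iter M c z i).head j)) =
        (fun j => (iter M c' z i).tape j ((iter M c' z i).head j)) := by
      funext j
      rw [← h2]
      exact h3 j _ (hs i (by omega) j)
    rw [iter_succ, iter_succ]
    refine ⟨?_, ?_, ?_⟩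
    · simp only [step]
      rw [h4, h1]
    · simp only [step]
      rw [h4, h1, h2]
    · intro j u hu
      simp only [step]
      rw [h4, h1, h2]
      by_cases hj : u = (iter M c' z i).head j
      · subst hj
        rw [Function.update_self, Function.update_self]
      · rw [Function.update_of_ne hj, Function.update_of_ne hj]
        exact h3 j u hu

end LOCM

open LOCM in
theorem specLOC : SpecLOC where
  det := fun M c c' z s hst hhd hs i hi =>
    ⟨(det_aux M c c' z s hst hhd hs i hi).1, (det_aux M c c' z s hst hhd hs i hi).2.1⟩
  unch := by
    intro M c z s j u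
    induction s with
    | zero => intro _; rfl
    | succ s ih =>
      intro h
      rw [iter_succ]
      simp only [step]
      rw [Function.update_of_ne (fun he => h s (by omega) he.symm)]
      exact ih (fun i hi => h i (by omega))
  move := by
    intro M c z i j
    rw [iter_succ]
    simp only [step]
    have h := (M.δm (iter M c z i).st (z i)
      (fun j => (iter M c z i).tape j ((iter M c z i).head j)) j).isLt
    rw [abs_le]
    constructor <;> omega
  add := by
    intro M c z i t
    induction i with
    | zero => rfl
    | succ i ih =>
      rw [← Nat.add_assoc, iter_succ, iter_succ, ih]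
  congr := by
    intro M c z z' t
    induction t with
    | zero => intro _; rfl
    | succ t ih =>
      intro h
      rw [iter_succ, iter_succ, ih (fun i hi => h i (by omega)), h t (by omega)]
  list := by
    intro M x n
    induction n with
    | zero => rfl
    | succ n ih =>
      rw [List.ofFn_succ', List.concat_eq_append, List.foldl_append]
      unfold conf at ih ⊢
      rw [iter_succ, ← ih]
      rfl

end Pool.Agent.Lib.MP9d2f5e
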