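import Pool.Agent.Lib.MP_9d2f5e_lc.Spec

/-!
# Module OVL: the overlap sum
-/

set_option autoImplicit false

open Filter Topology Finset

namespace Pool.Agent.Lib.MP9d2f5e

namespace OVLM

/-- `t'` is the last time before `t` with the same value -/
def Q (h : ℕ → ℤ) (t' t : ℕ) : Prop :=
  t' < t ∧ h t' = h t ∧ ∀ u, t' < u → u < t → h u ≠ h t

lemma Q_unique {h : ℕ → ℤ} {t t1 t2 : ℕ} (h1 : Q h t1 t) (h2 : Q h t2 t) : t1 = t2 := by
  rcases lt_trichotomy t1 t2 with h3 | h3 | h3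
  · exact absurd h2.2.1 (h1.2.2 t2 h3 h2.1)
  · exact h3
  · exact absurd h1.2.1 (h2.2.2 t1 h3 h1.1)

open Classical in
lemma meet_le (h : ℕ → ℤ) (a s : ℕ) :
    meet h a s ≤ ((Ico (a + s) (a + 2 * s)).filter
      (fun t => ∃ t', Q h t' t ∧ a ≤ t' ∧ t' < a + s)).card := by
  unfold meet
  refine Finset.card_le_card_of_surjOn h ?_
  intro v hv
  rw [Finset.mem_coe, Finset.mem_inter, Finset.mem_image, Finset.mem_image] at hv
  obtain ⟨⟨t1, ht1, hv1⟩, ⟨t2, ht2, hv2⟩⟩ := hv
  rw [Finset.mem_Ico] at ht1 ht2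
  have hex : ∃ t, a + s ≤ t ∧ h t = v := ⟨t2, ht2.1, hv2⟩
  set t := Nat.find hex with ht
  obtain ⟨hta, htv⟩ := Nat.find_spec hex
  have htmin : ∀ u, u < t → ¬ (a + s ≤ u ∧ h u = v) := fun u hu => Nat.find_min hex hu
  have htle : t ≤ t2 := Nat.find_min' hex ⟨ht2.1, hv2⟩
  obtain ⟨t', ht'm, ht'max⟩ := Finset.exists_max_image ((range t).filter fun u => h u = v) id
    ⟨t1, by rw [Finset.mem_filter, Finset.mem_range]; exact ⟨by omega, hv1⟩⟩
  rw [Finset.mem_filter, Finset.mem_range] at ht'm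
  refine ⟨t, ?_, htv⟩
  rw [Finset.mem_coe, Finset.mem_filter, Finset.mem_Ico]
  refine ⟨⟨hta, by omega⟩, t', ⟨ht'm.1, ht'm.2.trans htv.symm, ?_⟩, ?_, ?_⟩
  · intro u hu1 hu2 hu3
    have := ht'max u (by
      rw [Finset.mem_filter, Finset.mem_range]
      exact ⟨hu2, hu3.trans htv⟩)
    simp only [id_eq] at this
    omega
  · have := ht'max t1 (by
      rw [Finset.mem_filter, Finset.mem_range]
      exact ⟨by omega, hv1⟩)
    simp only [id_eq] at this
    omega
  · by_contra hcon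
    exact htmin t' ht'm.1 ⟨by omega, ht'm.2⟩

/-- the weights -/
noncomputable def g (j k : ℕ) : ℝ := if k + 1 < j then 0 else if k + 1 = j then 1 else
  (1 / 2) ^ (k - j)

lemma g_nonneg (j k : ℕ) : 0 ≤ g j k := by
  unfold g
  split_ifs
  · exact le_rfl
  · exact zero_le_one
  · positivity

lemma sum_g_aux (j m : ℕ) : ∑ k ∈ range (j + m), g j k ≤ 3 - 2 * (1 / 2) ^ m := by
  induction m with
  | zero =>
    cases j with
    | zero => norm_num
    | succ j =>
      rw [add_zero, Finset.sum_range_succ]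
      have h1 : ∑ k ∈ range j, g (j + 1) k = 0 := by
        refine Finset.sum_eq_zero fun k hk => ?_
        rw [Finset.mem_range] at hk
        unfold g
        rw [if_pos (by omega)]
      have h2 : g (j + 1) j = 1 := by
        unfold g
        rw [if_neg (by omega), if_pos rfl]
      rw [h1, h2]
      norm_num
  | succ m ih =>
    rw [← add_assoc, Finset.sum_range_succ]
    have h2 : g j (j + m) = (1 / 2) ^ m := by
      unfold g
      rw [if_neg (by omega), if_neg (by omega), Nat.add_sub_cancel_left]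
    rw [h2, pow_succ]
    linarith

lemma sum_g (j K₀ K₁ : ℕ) : ∑ k ∈ Ico K₀ K₁, g j k ≤ 3 := by
  have h1 : ∑ k ∈ Ico K₀ K₁, g j k ≤ ∑ k ∈ range (j + K₁), g j k := by
    refine Finset.sum_le_sum_of_subset_of_nonneg ?_ fun k _ _ => g_nonneg j k
    intro k hk
    rw [Finset.mem_Ico] at hk
    rw [Finset.mem_range]
    omega
  have h2 := sum_g_aux j K₁
  have h3 : (0 : ℝ) < (1 / 2) ^ K₁ := by positivity
  linarith

lemma cnt_bound (M s t t' : ℕ) (ht : t' < t) :
    ((range M).filter (fun a => a + s ≤ t ∧ t < a + 2 * s ∧ a ≤ t' ∧ t' < a + s)).card ≤ t - t' ∧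
    ((range M).filter (fun a => a + s ≤ t ∧ t < a + 2 * s ∧ a ≤ t' ∧ t' < a + s)).card ≤ s ∧
    (2 * s ≤ t - t' →
      ((range M).filter (fun a => a + s ≤ t ∧ t < a + 2 * s ∧ a ≤ t' ∧ t' < a + s)).card = 0) := by
  refine ⟨?_, ?_, ?_⟩
  · have h1 : ((range M).filter (fun a => a + s ≤ t ∧ t < a + 2 * s ∧ a ≤ t' ∧ t' < a + s)).card ≤
        (Finset.Ioc t' t).card := by
      refine Finset.card_le_card_of_injOn (fun a => a + s) ?_ ?_
      · intro a ha
        simp only [Finset.coe_filter, Finset.mem_range, Set.mem_setOf_eq] at ha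
        simp only [Finset.coe_Ioc, Set.mem_Ioc]
        omega
      · intro a _ b _ hab
        simp only at hab
        omega
    rwa [Nat.card_Ioc] at h1
  · have h1 : ((range M).filter (fun a => a + s ≤ t ∧ t < a + 2 * s ∧ a ≤ t' ∧ t' < a + s)).card ≤
        (Finset.Ioc t (t + s)).card := by
      refine Finset.card_le_card_of_injOn (fun a => a + 2 * s) ?_ ?_
      · intro a ha
        simp only [Finset.coe_filter, Finset.mem_range, Set.mem_setOf_eq] at ha
        simp only [Finset.coe_Ioc, Set.mem_Ioc]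
        omega
      · intro a _ b _ hab
        simp only at hab
        omega
    rwa [Nat.card_Ioc, Nat.add_sub_cancel_left] at h1
  · intro h2
    rw [Finset.card_eq_zero, Finset.filter_eq_empty_iff]
    intro a _ h3
    omega

lemma ratio (M k t t' : ℕ) (ht : t' < t) :
    (((range M).filter (fun a => a + 2 ^ k ≤ t ∧ t < a + 2 * 2 ^ k ∧ a ≤ t' ∧
      t' < a + 2 ^ k)).card : ℝ) / 2 ^ k ≤ g (Nat.clog 2 (t - t')) k := by
  obtain ⟨h1, h2, h3⟩ := cnt_bound M (2 ^ k) t t' ht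
  set c := ((range M).filter (fun a => a + 2 ^ k ≤ t ∧ t < a + 2 * 2 ^ k ∧ a ≤ t' ∧
      t' < a + 2 ^ k)).card with hc
  have hs : (0 : ℝ) < 2 ^ k := by positivity
  unfold g
  split_ifs with h4 h5
  · have h6 : 2 ^ (k + 1) < t - t' := by
      by_contra hcon
      have := (Nat.clog_le_iff_le_pow (by norm_num : 1 < 2)).2 (not_lt.1 hcon)
      omega
    rw [h3 (by rw [pow_succ] at h6; omega)]
    simp
  · rw [div_le_one hs]
    exact_mod_cast h2
  · rw [div_le_iff₀ hs]
    have h7 : t - t' ≤ 2 ^ Nat.clog 2 (t - t') := Nat.le_pow_clog (by norm_num) _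
    have h8 : (c : ℝ) ≤ 2 ^ Nat.clog 2 (t - t') := by
      exact_mod_cast h1.trans h7
    refine h8.trans (le_of_eq ?_)
    have h9 : k = (k - Nat.clog 2 (t - t')) + Nat.clog 2 (t - t') := by omega
    conv_rhs => rw [h9]
    rw [Nat.add_sub_cancel, pow_add, ← mul_assoc, ← mul_pow]
    norm_num

end OVLM

open OVLM Classical in
theorem specOVL : SpecOVL := by
  intro h N K₀ K₁
  -- the indicator
  set A : ℕ → ℕ → ℕ → Prop := fun k a t => a + 2 ^ k ≤ t ∧ t < a + 2 * 2 ^ k ∧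
    ∃ t', Q h t' t ∧ a ≤ t' ∧ t' < a + 2 ^ k with hA
  have hmeet : ∀ k, ∀ a ∈ range (N + 1 - 2 * 2 ^ k), (meet h a (2 ^ k) : ℝ) ≤
      ∑ t ∈ range N, if A k a t then (1 : ℝ) else 0 := by
    intro k a ha
    rw [Finset.mem_range] at ha
    rw [Finset.sum_boole]
    have h1 := meet_le h a (2 ^ k)
    have h2 : ((Ico (a + 2 ^ k) (a + 2 * 2 ^ k)).filter
      (fun t => ∃ t', Q h t' t ∧ a ≤ t' ∧ t' < a + 2 ^ k)).card ≤
        ((range N).filter fun t => A k a t).card := by
      refine Finset.card_le_card ?_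
      intro t ht
      rw [Finset.mem_filter, Finset.mem_Ico] at ht
      rw [Finset.mem_filter, Finset.mem_range]
      exact ⟨by omega, ht.1.1, ht.1.2, ht.2⟩
    exact_mod_cast h1.trans h2
  have hstep : ∑ k ∈ Ico K₀ K₁,
      (∑ a ∈ range (N + 1 - 2 * 2 ^ k), (meet h a (2 ^ k) : ℝ)) / 2 ^ k ≤
      ∑ t ∈ range N, ∑ k ∈ Ico K₀ K₁,
        (∑ a ∈ range (N + 1 - 2 * 2 ^ k), if A k a t then (1 : ℝ) else 0) / 2 ^ k := by
    rw [Finset.sum_comm]
    refine Finset.sum_le_sum fun k _ => ?_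
    rw [← Finset.sum_div, Finset.sum_comm]
    refine div_le_div_of_nonneg_right (Finset.sum_le_sum fun a ha => hmeet k a ha) ?_
    positivity
  refine hstep.trans ?_
  have hN : (3 : ℝ) * N = ∑ _t ∈ range N, (3 : ℝ) := by
    rw [Finset.sum_const, Finset.card_range, nsmul_eq_mul]
    ring
  rw [hN]
  refine Finset.sum_le_sum fun t _ => ?_
  by_cases hex : ∃ t', Q h t' t
  · obtain ⟨t', ht'⟩ := hex
    refine le_trans (Finset.sum_le_sum fun k _ => ?_) (sum_g (Nat.clog 2 (t - t')) K₀ K₁)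
    refine le_trans ?_ (ratio (N + 1 - 2 * 2 ^ k) k t t' ht'.1)
    refine div_le_div_of_nonneg_right ?_ (by positivity)
    rw [Finset.sum_boole]
    have : ((range (N + 1 - 2 * 2 ^ k)).filter fun a => A k a t).card ≤
        ((range (N + 1 - 2 * 2 ^ k)).filter (fun a => a + 2 ^ k ≤ t ∧ t < a + 2 * 2 ^ k ∧
          a ≤ t' ∧ t' < a + 2 ^ k)).card := by
      refine Finset.card_le_card ?_
      intro a ha
      rw [Finset.mem_filter] at ha ⊢
      obtain ⟨h1, h2, h3, t'', h4, h5, h6⟩ := ha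
      have h7 : t'' = t' := Q_unique h4 ht'
      subst h7
      exact ⟨h1, h2, h3, h5, h6⟩
    exact_mod_cast this
  · have : ∑ k ∈ Ico K₀ K₁,
        (∑ a ∈ range (N + 1 - 2 * 2 ^ k), if A k a t then (1 : ℝ) else 0) / 2 ^ k = 0 := by
      refine Finset.sum_eq_zero fun k _ => ?_
      rw [Finset.sum_eq_zero, zero_div]
      intro a _
      rw [if_neg]
      rintro ⟨_, _, t', h1, _⟩
      exact hex ⟨t', h1⟩
    rw [this]
    norm_num

end Pool.Agent.Lib.MP9d2f5e
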