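import Pool.Agent.Lib.MP_9d2f5e_lc.Spec

/-!
# PRJ: from the sequences of length `N` to the words of length `n`
-/

set_option autoImplicit false

open Filter Topology Finset

namespace Pool.Agent.Lib.MP9d2f5e

namespace PRJM

lemma X_append {n m : ℕ} (w : Fin n → Fin 2) (v : Fin m → Fin 2) (t : ℕ) (ht : t < n) :
    X (Fin.append w v) t = w ⟨t, ht⟩ := by
  unfold X
  rw [dif_pos (by omega : t < n + m)]
  exact Fin.append_left w v ⟨t, ht⟩

lemma par_eq {n : ℕ} (w : Fin n → Fin 2) (x : ℕ → Fin 2) (hx : ∀ t (ht : t < n), x t = w ⟨t, ht⟩) :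
    par (List.ofFn w) = Y x n := by
  unfold par Y
  rw [List.length_ofFn]
  refine Finset.sum_congr rfl fun j _ => ?_
  split_ifs with h
  · have h4 : 4 ≤ 2 ^ (j + 2) := by
      have : 1 ≤ 2 ^ j := Nat.one_le_two_pow
      rw [pow_add]
      omega
    have h5 : n + 2 - 2 ^ (j + 2) < n := by omega
    rw [hx _ h5, List.getD_eq_getElem _ _ (by rw [List.length_ofFn]; exact h5),
      List.getElem_ofFn]
  · rfl

lemma agree_iff (hLOC : SpecLOC) (M : TM) {n : ℕ} (w : Fin n → Fin 2) (x : ℕ → Fin 2)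
    (hx : ∀ t (ht : t < n), x t = w ⟨t, ht⟩) :
    Agree M x n ↔ (Acc M (List.ofFn w) ↔ List.ofFn w ∈ Lang) := by
  have h1 : (fun i : Fin n => x i) = w := by
    funext i
    exact hx i i.isLt
  have h2 := hLOC.list M x n
  rw [h1] at h2
  unfold Agree Acc
  rw [h2, ← par_eq w x hx, List.length_ofFn]
  rfl

end PRJM

open PRJM in
theorem specPRJ (hLOC : SpecLOC) : SpecPRJ := by
  intro M N n hn
  obtain ⟨m, rfl⟩ := Nat.exists_eq_add_of_le hn
  have h1 : ∑ x : Fin (n + m) → Fin 2, ind (Agree M (X x) n) =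
      ∑ q : (Fin n → Fin 2) × (Fin m → Fin 2),
        ind (Acc M (List.ofFn q.1) ↔ List.ofFn q.1 ∈ Lang) := by
    refine (Fintype.sum_equiv (Fin.appendEquiv n m) _ _ fun q => ?_).symm
    have h2 := agree_iff hLOC M q.1 (X (Fin.append q.1 q.2)) (fun t ht => X_append q.1 q.2 t ht)
    show _ = ind (Agree M (X (Fin.append q.1 q.2)) n)
    rw [propext h2]
  unfold Ex
  rw [h1, Fintype.sum_prod_type]
  simp only [Finset.sum_const, Finset.card_univ, Fintype.card_fun, Fintype.card_fin,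
    nsmul_eq_mul]
  rw [← Finset.mul_sum, pow_add]
  push_cast
  field_simp

end Pool.Agent.Lib.MP9d2f5e
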