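import Pool.Agent.Lib.MP_9d2f5e_lc.Spec

/-!
# MP_9d2f5e_lc, module RNG: discrete intermediate value theorem
-/

set_option autoImplicit false

open Finset

namespace Pool.Agent.Lib.MP9d2f5e

namespace RNGM

theorem up (h : ℕ → ℤ) (hh : ∀ t, |h (t + 1) - h t| ≤ 1) (v : ℤ) :
    ∀ d t, h t ≤ v → v ≤ h (t + d) → ∃ i ≤ d, h (t + i) = v := by
  intro d
  induction d with
  | zero =>
    intro t h1 h2
    exact ⟨0, le_rfl, le_antisymm h1 h2⟩
  | succ d ih =>
    intro t h1 h2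
    rcases eq_or_lt_of_le h1 with h3 | h3
    · exact ⟨0, Nat.zero_le _, h3⟩
    · have h4 := (abs_le.1 (hh t)).2
      obtain ⟨i, hi, he⟩ := ih (t + 1) (by omega) (by rw [show t + 1 + d = t + (d + 1) by omega]; exact h2)
      exact ⟨i + 1, by omega, by rw [show t + (i + 1) = t + 1 + i by omega]; exact he⟩

theorem down (h : ℕ → ℤ) (hh : ∀ t, |h (t + 1) - h t| ≤ 1) (v : ℤ) :
    ∀ d t, v ≤ h t → h (t + d) ≤ v → ∃ i ≤ d, h (t + i) = v := by
  intro d t h1 h2
  obtain ⟨i, hi, he⟩ := up (fun n => - h n) (fun n => by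
    rw [show -h (n + 1) - -h n = -(h (n + 1) - h n) by ring, abs_neg]; exact hh n) (-v) d t
    (by simpa using h1) (by simpa using h2)
  exact ⟨i, hi, by simpa using he⟩

end RNGM

open RNGM in
theorem specRNG : SpecRNG := by
  intro h a b hh u hu w hw v huv hvw
  rw [mem_image] at hu hw ⊢
  obtain ⟨t, ht, rfl⟩ := hu
  obtain ⟨t', ht', rfl⟩ := hw
  rw [mem_Ico] at ht ht'
  rcases le_total t t' with hle | hle
  · obtain ⟨i, hi, he⟩ := up h hh v (t' - t) t huv (by rw [Nat.add_sub_cancel' hle]; exact hvw)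
    exact ⟨t + i, mem_Ico.2 ⟨by omega, by omega⟩, he⟩
  · obtain ⟨i, hi, he⟩ := down h hh v (t - t') t' hvw (by rw [Nat.add_sub_cancel' hle]; exact huv)
    exact ⟨t' + i, mem_Ico.2 ⟨by omega, by omega⟩, he⟩

end Pool.Agent.Lib.MP9d2f5e
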