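import Pool.Agent.Lib.MP_9d2f5e_lc.Spec

/-!
# Module TAU of MP_9d2f5e_lc: the bound of CNT tends to zero
-/

set_option autoImplicit false

open Filter Topology Finset

namespace Pool.Agent.Lib.MP9d2f5e

namespace TAUM

/-- Polynomial times a decaying exponential. -/
theorem decay (m : ℕ) (C c : ℝ) (hc : 0 < c) :
    Tendsto (fun s : ℕ => C * (4 * (s : ℝ) + 2) ^ m * Real.exp (-(c * s))) atTop (𝓝 0) := by
  have h1 : Tendsto (fun s : ℕ => c * (s : ℝ) + c / 2) atTop atTop := by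
    apply Filter.tendsto_atTop_add_const_right
    exact Filter.Tendsto.const_mul_atTop hc tendsto_natCast_atTop_atTop
  have h2 := (Real.tendsto_pow_mul_exp_neg_atTop_nhds_zero m).comp h1
  have h3 := h2.const_mul (C * (4 / c) ^ m * Real.exp (c / 2))
  rw [mul_zero] at h3
  refine h3.congr fun s => ?_
  simp only [Function.comp]
  have e1 : (4 * (s : ℝ) + 2) ^ m = (4 / c) ^ m * (c * (s : ℝ) + c / 2) ^ m := by
    rw [← mul_pow]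
    congr 1
    field_simp
    ring
  have e2 : Real.exp (-(c * (s : ℝ))) = Real.exp (c / 2) * Real.exp (-(c * (s : ℝ) + c / 2)) := by
    rw [← Real.exp_add]
    congr 1
    ring
  rw [e1, e2]
  ring

/-- The pointwise bound. -/
theorem bound (M : TM) (δ ε : ℝ) (hε : 0 < ε) (hε1 : ε ≤ 1)
    (hk : (M.k : ℝ) * (ε * Real.log (M.g + 1)) ≤ δ ^ 2 / 8) (s : ℕ) :
    tau M s (⌈ε * s⌉₊) δ ≤
      ((M.q + 1) * ((M.g : ℝ) + 1) ^ M.k * Real.exp (3 * δ ^ 2 / 2)) *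
        (4 * (s : ℝ) + 2) ^ (3 * M.k) * Real.exp (-(3 * δ ^ 2 / 8 * s)) := by
  have hs : (0 : ℝ) ≤ s := Nat.cast_nonneg s
  have hg : (0 : ℝ) ≤ M.g := Nat.cast_nonneg _
  have hg1 : (0 : ℝ) < (M.g : ℝ) + 1 := by linarith
  have hq : (0 : ℝ) ≤ M.q := Nat.cast_nonneg _
  have hw : ((⌈ε * s⌉₊ : ℕ) : ℝ) ≤ ε * s + 1 := (Nat.ceil_lt_add_one (by positivity)).le
  have hw2 : ((⌈ε * s⌉₊ : ℕ) : ℝ) + 1 ≤ 4 * (s : ℝ) + 2 := by
    have : ε * (s : ℝ) ≤ 1 * s := mul_le_mul_of_nonneg_right hε1 hs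
    linarith
  have hlog : 0 ≤ Real.log ((M.g : ℝ) + 1) := Real.log_nonneg (by linarith)
  -- the power of the alphabet
  have hpw : ((M.g : ℝ) + 1) ^ (⌈ε * s⌉₊) ≤
      ((M.g : ℝ) + 1) * Real.exp (ε * s * Real.log (M.g + 1)) := by
    have e0 : ((M.g : ℝ) + 1) ^ (⌈ε * s⌉₊) =
        Real.exp (((⌈ε * s⌉₊ : ℕ) : ℝ) * Real.log (M.g + 1)) := by
      rw [Real.exp_nat_mul, Real.exp_log hg1]
    have e1 : ((M.g : ℝ) + 1) * Real.exp (ε * s * Real.log (M.g + 1)) =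
        Real.exp ((ε * s + 1) * Real.log (M.g + 1)) := by
      have e2 : (ε * s + 1) * Real.log ((M.g : ℝ) + 1) =
          ε * s * Real.log ((M.g : ℝ) + 1) + Real.log ((M.g : ℝ) + 1) := by ring
      rw [e2, Real.exp_add, Real.exp_log hg1]
      ring
    rw [e0, e1]
    exact Real.exp_le_exp.mpr (mul_le_mul_of_nonneg_right hw hlog)
  have hin : (4 * (s : ℝ) + 2) ^ 2 * (((⌈ε * s⌉₊ : ℕ) : ℝ) + 1) * ((M.g : ℝ) + 1) ^ (⌈ε * s⌉₊) ≤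
      (4 * (s : ℝ) + 2) ^ 3 * (((M.g : ℝ) + 1) * Real.exp (ε * s * Real.log (M.g + 1))) := by
    have hp : (0 : ℝ) ≤ (4 * (s : ℝ) + 2) ^ 2 := by positivity
    have h1 : (4 * (s : ℝ) + 2) ^ 2 * (((⌈ε * s⌉₊ : ℕ) : ℝ) + 1) ≤ (4 * (s : ℝ) + 2) ^ 3 := by
      calc (4 * (s : ℝ) + 2) ^ 2 * (((⌈ε * s⌉₊ : ℕ) : ℝ) + 1)
          ≤ (4 * (s : ℝ) + 2) ^ 2 * (4 * (s : ℝ) + 2) := mul_le_mul_of_nonneg_left hw2 hp
        _ = (4 * (s : ℝ) + 2) ^ 3 := by ring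
    exact mul_le_mul h1 hpw (by positivity) (by positivity)
  have hpk : ((4 * (s : ℝ) + 2) ^ 2 * (((⌈ε * s⌉₊ : ℕ) : ℝ) + 1) *
      ((M.g : ℝ) + 1) ^ (⌈ε * s⌉₊)) ^ M.k ≤
      (4 * (s : ℝ) + 2) ^ (3 * M.k) * ((M.g : ℝ) + 1) ^ M.k * Real.exp (δ ^ 2 / 8 * s) := by
    refine (pow_le_pow_left₀ (by positivity) hin M.k).trans ?_
    rw [mul_pow, mul_pow, ← pow_mul, ← Real.exp_nat_mul]
    have h4 : Real.exp ((M.k : ℝ) * (ε * s * Real.log (M.g + 1))) ≤ Real.exp (δ ^ 2 / 8 * s) := by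
      apply Real.exp_le_exp.mpr
      have : (M.k : ℝ) * (ε * s * Real.log (M.g + 1)) =
          (M.k : ℝ) * (ε * Real.log (M.g + 1)) * s := by ring
      rw [this]
      exact mul_le_mul_of_nonneg_right hk hs
    have := mul_le_mul_of_nonneg_left h4
      (show (0 : ℝ) ≤ (4 * (s : ℝ) + 2) ^ (3 * M.k) * ((M.g : ℝ) + 1) ^ M.k by positivity)
    calc (4 * (s : ℝ) + 2) ^ (3 * M.k) *
          (((M.g : ℝ) + 1) ^ M.k * Real.exp ((M.k : ℝ) * (ε * s * Real.log (M.g + 1))))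
        = (4 * (s : ℝ) + 2) ^ (3 * M.k) * ((M.g : ℝ) + 1) ^ M.k *
          Real.exp ((M.k : ℝ) * (ε * s * Real.log (M.g + 1))) := by ring
      _ ≤ _ := this
  unfold tau Db
  have hD : ((M.q : ℝ) + 1) * ((4 * (s : ℝ) + 2) ^ 2 * (((⌈ε * s⌉₊ : ℕ) : ℝ) + 1) *
      ((M.g : ℝ) + 1) ^ (⌈ε * s⌉₊)) ^ M.k ≤
      ((M.q : ℝ) + 1) * ((4 * (s : ℝ) + 2) ^ (3 * M.k) * ((M.g : ℝ) + 1) ^ M.k *
        Real.exp (δ ^ 2 / 8 * s)) := mul_le_mul_of_nonneg_left hpk (by linarith)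
  have hfin := mul_le_mul_of_nonneg_right hD (Real.exp_pos (-(δ ^ 2 / 2 * ((s : ℝ) - 3)))).le
  refine hfin.trans (le_of_eq ?_)
  have e5 : Real.exp (δ ^ 2 / 8 * s) * Real.exp (-(δ ^ 2 / 2 * ((s : ℝ) - 3))) =
      Real.exp (3 * δ ^ 2 / 2) * Real.exp (-(3 * δ ^ 2 / 8 * s)) := by
    rw [← Real.exp_add, ← Real.exp_add]
    congr 1
    ring
  calc ((M.q : ℝ) + 1) * ((4 * (s : ℝ) + 2) ^ (3 * M.k) * ((M.g : ℝ) + 1) ^ M.k *
        Real.exp (δ ^ 2 / 8 * s)) * Real.exp (-(δ ^ 2 / 2 * ((s : ℝ) - 3)))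
      = ((M.q : ℝ) + 1) * ((4 * (s : ℝ) + 2) ^ (3 * M.k) * ((M.g : ℝ) + 1) ^ M.k) *
        (Real.exp (δ ^ 2 / 8 * s) * Real.exp (-(δ ^ 2 / 2 * ((s : ℝ) - 3)))) := by ring
    _ = ((M.q : ℝ) + 1) * ((4 * (s : ℝ) + 2) ^ (3 * M.k) * ((M.g : ℝ) + 1) ^ M.k) *
        (Real.exp (3 * δ ^ 2 / 2) * Real.exp (-(3 * δ ^ 2 / 8 * s))) := by rw [e5]
    _ = _ := by ring

end TAUM

theorem specTAU : SpecTAU := by
  intro M δ hδ
  have hlog : 0 ≤ Real.log ((M.g : ℝ) + 1) :=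
    Real.log_nonneg (by have : (0 : ℝ) ≤ M.g := Nat.cast_nonneg _; linarith)
  set A : ℝ := (M.k : ℝ) * Real.log (M.g + 1) with hA
  have hA0 : 0 ≤ A := mul_nonneg (Nat.cast_nonneg _) hlog
  set ε : ℝ := min 1 (δ ^ 2 / 8 / (A + 1)) with hεd
  have hε : 0 < ε := lt_min one_pos (by positivity)
  have hε1 : ε ≤ 1 := min_le_left _ _
  have hε2 : ε ≤ δ ^ 2 / 8 / (A + 1) := min_le_right _ _
  have hk : (M.k : ℝ) * (ε * Real.log (M.g + 1)) ≤ δ ^ 2 / 8 := by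
    have h1 : (M.k : ℝ) * (ε * Real.log (M.g + 1)) = ε * A := by rw [hA]; ring
    rw [h1]
    calc ε * A ≤ (δ ^ 2 / 8 / (A + 1)) * A := mul_le_mul_of_nonneg_right hε2 hA0
      _ ≤ (δ ^ 2 / 8 / (A + 1)) * (A + 1) :=
          mul_le_mul_of_nonneg_left (by linarith) (by positivity)
      _ = δ ^ 2 / 8 := by field_simp
  refine ⟨ε, hε, ?_⟩
  have hT := TAUM.decay (3 * M.k) ((M.q + 1) * ((M.g : ℝ) + 1) ^ M.k * Real.exp (3 * δ ^ 2 / 2))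
    (3 * δ ^ 2 / 8) (by positivity)
  have hpow : Tendsto (fun k : ℕ => 2 ^ k) atTop (atTop : Filter ℕ) :=
    tendsto_pow_atTop_atTop_of_one_lt one_lt_two
  have hT2 := hT.comp hpow
  have hev1 : ∀ᶠ k : ℕ in atTop, tau M (2 ^ k) (⌈ε * 2 ^ k⌉₊) δ ≤ δ := by
    filter_upwards [hT2.eventually (gt_mem_nhds hδ)] with k hk2
    have hb := TAUM.bound M δ ε hε hε1 hk (2 ^ k)
    have hcast : ((2 ^ k : ℕ) : ℝ) = 2 ^ k := by push_cast; ring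
    simp only [Function.comp] at hk2
    rw [hcast] at hb hk2
    exact hb.trans hk2.le
  have hev2 : ∀ᶠ k : ℕ in atTop, 3 ≤ δ * (2 : ℝ) ^ k := by
    have h5 : Tendsto (fun k : ℕ => δ * (2 : ℝ) ^ k) atTop atTop :=
      Filter.Tendsto.const_mul_atTop hδ (tendsto_pow_atTop_atTop_of_one_lt one_lt_two)
    exact h5.eventually_ge_atTop 3
  obtain ⟨K, hK⟩ := Filter.eventually_atTop.mp ((eventually_ge_atTop 2).and (hev2.and hev1))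
  exact ⟨K, fun k hk3 => ⟨(hK k hk3).1, (hK k hk3).2.1, (hK k hk3).2.2⟩⟩

end Pool.Agent.Lib.MP9d2f5e
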