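import Pool.Agent.Lib.MP_9d2f5e_lc.Spec
import Pool.Agent.Lib.MP_9d2f5e_lc.OVL
import Pool.Agent.Lib.MP_9d2f5e_lc.DSC
import Pool.Agent.Lib.MP_9d2f5e_lc.CNT
import Pool.Agent.Lib.MP_9d2f5e_lc.AVG
import Pool.Agent.Lib.MP_9d2f5e_lc.ASY
import Pool.Agent.Lib.MP_9d2f5e_lc.TAU
import Pool.Agent.Lib.MP_9d2f5e_lc.FIN
import Pool.Agent.Lib.MP_9d2f5e_lc.LOC
import Pool.Agent.Lib.MP_9d2f5e_lc.GLU
import Pool.Agent.Lib.MP_9d2f5e_lc.PRJ
import Pool.Agent.Lib.MP_9d2f5e_lc.INJ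
import Pool.Agent.Lib.MP_9d2f5e_lc.CHF
import Pool.Agent.Lib.MP_9d2f5e_lc.CAT
import Pool.Agent.Lib.MP_9d2f5e_lc.RNG
import Pool.Agent.Lib.MP_9d2f5e_lc.IAR

/-!
# MP_9d2f5e_lc: assembly of the modules of `Spec.lean`
-/

set_option autoImplicit false

namespace Pool.Agent.Lib.MP9d2f5e

/-- The array recognises the language. -/
theorem array_spec : SpecIAR := specIAR specCAT

/-- No real-time machine has an advantage over guessing. -/
theorem main : SpecFIN :=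
  specFIN (specPRJ specLOC)
    (specASY specOVL (specAVG (specCNT specINJ specCHF (specDSC specLOC specRNG)) specGLU)
      specTAU)

end Pool.Agent.Lib.MP9d2f5e
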