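import Mathlib

/-!
# MP_9d2f5e_lc: real-time Turing machines cannot guess the language of the two-state XOR array

THEOREM.  Let `L` be the language over `{0,1}` recognised in real time by the iterative array with two
states in which every cell adds (mod 2) its two neighbours and cell `0` adds its right neighbour and
the input.  For every real-time multitape Turing machine `M`, even if its accepting set may depend
(arbitrarily) on the length of the word, the proportion `P_n` of the words of length `n` on which `M`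
and `L` agree is `1/2 + o(1)` for almost all `n`: the average of `|P_n - 1/2|` over `n < N` tends to `0`.

PLAN.  The array has the Catalan numbers mod 2 as impulse response, so
`w ∈ L ↔ ∑_(j ≥ 2) w_(n+2-2^j)` odd (positions `0 .. n-1`).  For two adjacent intervals of times
`[a,a+s)`, `[a+s,a+2s)`, `s = 2^k`, the answers of `L` in the second interval determine the input in the
first one up to three bits (INJ).  Overlap argument (Cook - Aanderaa, Paterson - Fischer - Meyer): for
most intervals at some scale the machine brings only `ε s` cells from the first interval into the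
second one (OVL); its answers in the second interval then take at most `2^(o(s)+C ε s)` values (DSC), and
a Chernoff bound (CHF) shows that they agree with `L` on at most `(1/2+δ) s` of the times, for all
but a tiny part of the inputs (CNT).

CONVENTIONS.  Every module `XXX` is a file `Pool/Agent/Lib/MP_9d2f5e_lc/XXX.lean` which imports only
this file and proves `theorem specXXX (hYYY : SpecYYY) .. : SpecXXX` in the namespace
`Pool.Agent.Lib.MP9d2f5e`, with the hypotheses named in the docstring, in this order; own lemmas in a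
namespace `XXXM`.  No double-quote characters.
-/

set_option autoImplicit false

open Filter Topology Finset

namespace Pool.Agent.Lib.MP9d2f5e

/-- A real-time Turing machine with `k` tapes over the input alphabet `{0,1}`, with `q + 1` states and
`g + 1` tape symbols (`0`: initial state, blank).  `F n` is the set of accepting states for words of
length `n` (more general than needed: it may depend on `n`). -/
structure TM where
  k : ℕ
  g : ℕ
  q : ℕ
  δq : Fin (q + 1) → Fin 2 → (Fin k → Fin (g + 1)) → Fin (q + 1)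
  δw : Fin (q + 1) → Fin 2 → (Fin k → Fin (g + 1)) → Fin k → Fin (g + 1)
  δm : Fin (q + 1) → Fin 2 → (Fin k → Fin (g + 1)) → Fin k → Fin 3
  F : ℕ → Set (Fin (q + 1))

/-- Configurations: state, tape contents, head positions. -/
structure Conf (M : TM) where
  st : Fin (M.q + 1)
  tape : Fin M.k → ℤ → Fin (M.g + 1)
  head : Fin M.k → ℤ

/-- One step with input symbol `a`: the heads write and move by `-1`, `0` or `1`. -/
def step (M : TM) (c : Conf M) (a : Fin 2) : Conf M where
  st := M.δq c.st a (fun j => c.tape j (c.head j))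
  tape := fun j => Function.update (c.tape j) (c.head j)
    (M.δw c.st a (fun j' => c.tape j' (c.head j')) j)
  head := fun j => c.head j + ((M.δm c.st a (fun j' => c.tape j' (c.head j')) j : ℕ) : ℤ) - 1

/-- The initial configuration. -/
def ini (M : TM) : Conf M := ⟨0, fun _ _ => 0, fun _ => 0⟩

/-- `M` accepts the word `w`. -/
def Acc (M : TM) (w : List (Fin 2)) : Prop := (w.foldl (step M) (ini M)).st ∈ M.F w.length

/-- The configuration reached from `c` after reading `z 0, .., z (t-1)`. -/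
def iter (M : TM) (c : Conf M) (z : ℕ → Fin 2) : ℕ → Conf M
  | 0 => c
  | t + 1 => step M (iter M c z t) (z t)

/-- The configuration after reading `x 0, .., x (t-1)`. -/
def conf (M : TM) (x : ℕ → Fin 2) (t : ℕ) : Conf M := iter M (ini M) x t

/-- The number of ones of `w` at the positions `|w| + 2 - 2^j`, `j ≥ 2`. -/
def par (w : List (Fin 2)) : ℕ :=
  ∑ j ∈ range w.length, if 2 ^ (j + 2) ≤ w.length + 2 then
    ((w.getD (w.length + 2 - 2 ^ (j + 2)) 0 : Fin 2) : ℕ) else 0

/-- The language. -/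
def Lang : Set (List (Fin 2)) := {w | Odd (par w)}

/-- The same for the first `n` symbols of a sequence. -/
def Y (x : ℕ → Fin 2) (n : ℕ) : ℕ :=
  ∑ j ∈ range n, if 2 ^ (j + 2) ≤ n + 2 then ((x (n + 2 - 2 ^ (j + 2)) : Fin 2) : ℕ) else 0

/-- The machine and the language agree on the first `n` symbols of `x`. -/
def Agree (M : TM) (x : ℕ → Fin 2) (n : ℕ) : Prop := (conf M x n).st ∈ M.F n ↔ Odd (Y x n)

open Classical in
/-- The indicator of a proposition. -/
noncomputable def ind (p : Prop) : ℝ := if p then 1 else 0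

/-- A finite word as a sequence. -/
def X {N : ℕ} (x : Fin N → Fin 2) (t : ℕ) : Fin 2 := if h : t < N then x ⟨t, h⟩ else 0

/-- The expectation over the first `N` symbols. -/
noncomputable def Ex (N : ℕ) (f : (ℕ → Fin 2) → ℝ) : ℝ :=
  (∑ x : Fin N → Fin 2, f (X x)) / 2 ^ N

/-- Replace the symbols at the times `a .. a+s-1` by `b`. -/
def glue (a s : ℕ) (x : ℕ → Fin 2) (b : Fin s → Fin 2) (t : ℕ) : Fin 2 :=
  if h : a ≤ t ∧ t < a + s then b ⟨t - a, by omega⟩ else x t

/-- The number of agreements at the times `a+s .. a+2s-1`. -/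
noncomputable def agr (M : TM) (x : ℕ → Fin 2) (a s : ℕ) : ℝ :=
  ∑ n ∈ Ico (a + s) (a + 2 * s), ind (Agree M x n)

/-- The number of values taken by `h` on both of `[a,a+s)` and `[a+s,a+2s)`. -/
def meet (h : ℕ → ℤ) (a s : ℕ) : ℕ :=
  ((Ico a (a + s)).image h ∩ (Ico (a + s) (a + 2 * s)).image h).card

/-- The overlap: the number of cells scanned in both intervals of steps. -/
def ov (M : TM) (x : ℕ → Fin 2) (a s : ℕ) : ℕ :=
  ∑ j : Fin M.k, meet (fun t => (conf M x t).head j) a s

/-- The bound for the number of answer patterns. -/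
noncomputable def Db (M : TM) (s w : ℕ) : ℝ :=
  (M.q + 1) * ((4 * s + 2) ^ 2 * (w + 1) * (M.g + 1) ^ w) ^ M.k

/-- The bound of CNT. -/
noncomputable def tau (M : TM) (s w : ℕ) (δ : ℝ) : ℝ :=
  Db M s w * Real.exp (-(δ ^ 2 / 2 * (s - 3)))

/-- One step of the two-state XOR array: cell `0` gets the sum of cell `1` and the input symbol (none:
nothing), the other cells the sum of their neighbours. -/
def iaStep (w : List (Fin 2)) (p : ℕ × (ℕ → Fin 2)) : ℕ × (ℕ → Fin 2) :=
  (p.1 + 1, fun i => if i = 0 then p.2 1 + (w[p.1]?).getD 0 else p.2 (i - 1) + p.2 (i + 1))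

/-- The array accepts `w`: cell `0` is in state `1` at time `|w| + 1`. -/
def iaAcc (w : List (Fin 2)) : Prop := ((iaStep w)^[w.length + 1] (0, fun _ => 0)).2 0 = 1

/-! ### The array -/

/-- Module CAT (50 lines).  PROOF.  Strong induction on `k`.  `k = 0`: `1` is odd, `1 = 2^0`.
Mod 2 (Lucas, `Choose.choose_modEq_choose_mod_mul_choose_div_nat` with `p = 2`, or Pascal):
`C(2k+1, k) ≡ C(1, k % 2) C(k, k / 2) = C(k, k / 2)`.  If `k = 2 l`, `l ≥ 1`, `C(2 l, l)` is even
(`Nat.succ_dvd_centralBinom` / `Nat.two_dvd_centralBinom_of_one_le`) and `k + 1` is odd and `> 1`, not a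
power of `2`.  If `k = 2 l + 1`: `C(2l+1, l)`, and `k + 1 = 2 (l + 1)` is a power of two iff `l + 1` is. -/
def SpecCAT : Prop := ∀ k : ℕ, Odd (Nat.choose (2 * k + 1) k) ↔ ∃ j : ℕ, k + 1 = 2 ^ j

/-- Module IAR (from CAT; 150 lines).  PROOF.  Work in `ZMod 2` (the same as `Fin 2`).  Put
`z t = (w[t]?).getD 0` and `b i m = C(m+1, (m-i)/2)` if `i ≤ m` and `m - i` is even, `0` otherwise.  Claim:
after `t` steps the first component is `t` and the state of cell `i` is
`S i t = ∑ m ∈ range t, b i m * z (t - 1 - m)` mod 2.  Induction on `t`: `b i 0 = [i = 0]`;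
for `i ≥ 1`, `b i (m+1) = b (i-1) m + b (i+1) m` (Pascal: with `m + 1 = i + 2 k`,
`C(m+2, k) = C(m+1, k) + C(m+1, k-1)`, also for `k = 0` with the second term `0`); for `i = 0`,
`b 0 (m+1) ≡ b 1 m` mod 2: with `m + 1 = 2 k`, `k ≥ 1`: `C(2k+1, k) = C(2k, k) + C(2k, k-1)` and
`C(2k, k)` is even.  At `t = n + 1`, `n = |w|`, `i = 0`: `∑ m ≤ n, m = 2 k, C(2k+1, k) z (n - 2 k)`; by CAT the
coefficient is `1` iff `k + 1 = 2^j`, i.e. `n - 2k = n + 2 - 2^(j+1)`; the term `j = 0` (`k = 0`) is
`z n = 0`; the others are the terms of `par w` (index `j - 1`; `2^(j+1) ≤ n + 2`).  So the state is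
`par w` mod 2. -/
def SpecIAR : Prop := ∀ w : List (Fin 2), iaAcc w ↔ w ∈ Lang

/-! ### The language -/

/-- Module INJ (80 lines).  PROOF.  Let `s = 2^k`.  Suppose `x ≠ x'` and let `p` be the largest time
with `x p ≠ x' p`; `a + 3 ≤ p < a + s`.  Take `r = p - a - 2`, `n = a + s + r = p + s - 2`; `1 ≤ r`,
`r + 3 ≤ s`.  In `Y x n - Y x' n` the term with `2^(j+2) = s` is `x p - x' p = ± 1`.  The terms with
`2^(j+2) < s` are at positions `p + s - 2^(j+2) > p`, where `x = x'`.  If `2^(j+2) > s` then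
`2^(j+2) ≥ 2 s` and the position is `≤ p - s < a`, where `x = x'` too.  So the parities differ. -/
def SpecINJ : Prop :=
  ∀ (k a : ℕ) (x x' : ℕ → Fin 2), 2 ≤ k →
    (∀ t, (t < a + 3 ∨ a + 2 ^ k ≤ t) → x t = x' t) →
    (∀ r, 1 ≤ r → r + 3 ≤ 2 ^ k → (Odd (Y x (a + 2 ^ k + r)) ↔ Odd (Y x' (a + 2 ^ k + r)))) →
    x = x'

/-- Module CHF (80 lines): Chernoff.  PROOF.  `ind (u ≤ A) ≤ exp (4 δ (A - u))` with
`A = ∑ i, ind (z i = m i)`, `u = (1/2 + δ) n`.  `∑_z exp (4 δ A) = ∏_i (exp (4 δ) + 1)`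
(`Finset.prod_univ_sum` / `Fintype.sum_pow`-like: the sum over `z : Fin n → Bool` of a product over `i`),
and `exp (4 δ) + 1 = exp (2 δ) * 2 cosh (2 δ) ≤ 2 exp (2 δ + 2 δ ^ 2)` (`Real.cosh_le_exp_half_sq`).
Total: `2^n exp (2 δ n + 2 δ² n - 4 δ (1/2 + δ) n) = 2^n exp (-2 δ² n)`. -/
def SpecCHF : Prop :=
  ∀ (n : ℕ) (m : Fin n → Bool) (δ : ℝ), 0 ≤ δ →
    ∑ z : Fin n → Bool, ind ((1 / 2 + δ) * n ≤ ∑ i, ind (z i = m i)) ≤
      2 ^ n * Real.exp (-(2 * δ ^ 2 * n))

/-! ### The machine -/

/-- Module LOC (110 lines).  PROOF.  (1) Induction on `t`, with the stronger statement that in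
addition the tapes of `iter c z t` and `iter c' z t` agree at every cell at which the tapes of `c`, `c'`
agree.  In the step the scanned symbols agree (the scanned cell is one at which `c`, `c'` agree).
(2) Induction on `t`; the step only changes the scanned cell.  (3) `δm` has values `0, 1, 2`.
(4) Induction on `t`. (5) `List.ofFn_succ'` / induction on `n` and `List.foldl_concat`. -/
structure SpecLOC : Prop where
  det : ∀ (M : TM) (c c' : Conf M) (z : ℕ → Fin 2) (s : ℕ), c.st = c'.st → c.head = c'.head →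
    (∀ i < s, ∀ j, c.tape j ((iter M c z i).head j) = c'.tape j ((iter M c z i).head j)) →
    ∀ i ≤ s, (iter M c z i).st = (iter M c' z i).st ∧
      (iter M c z i).head = (iter M c' z i).head
  unch : ∀ (M : TM) (c : Conf M) (z : ℕ → Fin 2) (s : ℕ) (j : Fin M.k) (u : ℤ),
    (∀ i < s, (iter M c z i).head j ≠ u) → (iter M c z s).tape j u = c.tape j u
  move : ∀ (M : TM) (c : Conf M) (z : ℕ → Fin 2) (i : ℕ) (j : Fin M.k),
    |(iter M c z (i + 1)).head j - (iter M c z i).head j| ≤ 1
  add : ∀ (M : TM) (c : Conf M) (z : ℕ → Fin 2) (i t : ℕ),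
    iter M c z (t + i) = iter M (iter M c z t) (fun n => z (t + n)) i
  congr : ∀ (M : TM) (c : Conf M) (z z' : ℕ → Fin 2) (t : ℕ), (∀ i < t, z i = z' i) →
    iter M c z t = iter M c z' t
  list : ∀ (M : TM) (x : ℕ → Fin 2) (n : ℕ),
    ((List.ofFn (fun i : Fin n => x i)).foldl (step M) (ini M)) = conf M x n

/-- Module RNG (40 lines).  PROOF.  Discrete intermediate value theorem: `h` moves by at most `1`, so
between two times of the interval at which it is `≤ v` and `≥ v` it takes the value `v`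
(induction on the distance of the two times). -/
def SpecRNG : Prop :=
  ∀ (h : ℕ → ℤ) (a b : ℕ), (∀ t, |h (t + 1) - h t| ≤ 1) →
    ∀ u ∈ (Ico a b).image h, ∀ w ∈ (Ico a b).image h, ∀ v, u ≤ v → v ≤ w →
      v ∈ (Ico a b).image h

/-- Module OVL (200 lines): the overlap sum.  PROOF.  For `t' < t` say `t' ⊣ t` if `h t' = h t` and
`h u ≠ h t` for `t' < u < t`; for every `t` there is at most one such `t'`.  (1) `meet h a s` is at most
the number of pairs `t' ⊣ t` with `t' ∈ [a,a+s)`, `t ∈ [a+s,a+2s)`: to a common value `v` assign the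
last `t' ∈ [a,a+s)` and the first `t ∈ [a+s,a+2s)` with value `v`.  (2) For a pair with `d = t - t' ≥ 1` the
number of `a` with `a ≤ t' < a+s ≤ t < a+2s` is at most `d`, is `0` if `2 s ≤ d`, and at most `s`.  Hence
the sum over `k` of this number divided by `2^k` is at most `1` from the only `k` with `d/2 < 2^k < d`
plus `∑_(2^k ≥ d) d / 2^k ≤ 2` (geometric series), in total `3`.  (3) Sum over the pairs (at most one
for every `t < N`). -/
def SpecOVL : Prop :=
  ∀ (h : ℕ → ℤ) (N K₀ K₁ : ℕ),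
    ∑ k ∈ Ico K₀ K₁, (∑ a ∈ range (N + 1 - 2 * 2 ^ k), (meet h a (2 ^ k) : ℝ)) / 2 ^ k ≤ 3 * N

/-- Module DSC (from LOC, RNG; 200 lines): few answer patterns.  PROOF.  Fix `x`, `a`, `s`.  Let
`c₀ = conf x a` (it does not depend on `b`), for `b` let `x_b = glue a s x b`, `c_b = conf x_b (a+s)`, and
for every tape `j`: `p = c_b.head j`, `I` = the set of cells scanned at the steps `[a,a+s)`, `J` = the
same for `[a+s,a+2s)` (heads of `conf x_b t`).  `I ∩ J` is an interval of integers (RNG: both are) with at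
most `w` elements, all cells are at distance at most `2 s` from `c₀.head j` (`LOC.move`).  `Φ b` consists
of: the state of `c_b`, the numbers `p - c₀.head j + 2 s`, the left end of `I ∩ J` minus `c₀.head j` plus
`2 s` (`4 s + 1` if it is empty), `|I ∩ J|`, and the contents of the tape of `c_b` at the first `|I ∩ J|`
cells from the left end (`0` beyond).  Let `Φ b = Φ b'`.  Let `c'` be the configuration with the state and
heads of `c_b` and the tape of `c_b` on `I ∩ J` and of `c₀` elsewhere; it is the same for `b'`.  The cells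
of `J` outside `I` have the content of `c₀` in `c_b` (`LOC.unch`), so `c_b` and `c'` agree on all scanned
cells and `LOC.det` gives the same states for `s` steps (the inputs `x (a+s+n)` are the same for `b`,
`b'`, `LOC.add`, `LOC.congr`).  Here `s ≥ 1`.  The cardinality of the type of `Φ b` is
`(q+1) (4s+2)^k (4s+2)^k (w+1)^k ((g+1)^w)^k = Db M s w`. -/
def SpecDSC : Prop :=
  ∀ (M : TM) (x : ℕ → Fin 2) (a s w : ℕ), 1 ≤ s →
    ∃ (D : Type) (_ : Fintype D) (Φ : (Fin s → Fin 2) → D), (Fintype.card D : ℝ) ≤ Db M s w ∧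
      ∀ b b' : Fin s → Fin 2, ov M (glue a s x b) a s ≤ w → ov M (glue a s x b') a s ≤ w →
        Φ b = Φ b' → ∀ r < s, (conf M (glue a s x b) (a + s + r)).st =
          (conf M (glue a s x b') (a + s + r)).st

/-- Module CNT (from INJ, CHF, DSC; 180 lines).  PROOF.  Let `s = 2^k`.  Let `Bad b` be the property on
the left.  Fix a value `d ∈ D` and the first three symbols `b 0, b 1, b 2` (8 choices) and let `B` be
the set of the bad `b` with these data and `Φ b = d`.  If `B` is empty there is nothing to do; otherwise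
take `b₁ ∈ B`, `m r = [the state of conf (glue x b₁) (a+s+r) is in F (a+s+r)]` for `1 ≤ r ≤ s - 3`.  For `b ∈ B` the
answers of the machine at the times `a+s+r` are `m r` (DSC), so `z_b r = [Odd (Y (glue x b) (a+s+r))]`
agrees with `m` at all these `r` with `Agree`, at least `(1/2 + δ) s - 3 ≥ (1/2 + δ/2) (s - 3)` times
(`3 ≤ δ s`; only `r = 0, s-2, s-1` are left out).  By INJ `b ↦ z_b` is injective on `B`.  CHF with
`n = s - 3`, `δ/2`: `|B| ≤ 2^(s-3) exp (-(δ²/2) (s-3))`.  Sum over `8 |D|` classes. -/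
def SpecCNT : Prop :=
  ∀ (M : TM) (x : ℕ → Fin 2) (a k w : ℕ) (δ : ℝ), 2 ≤ k → 0 < δ → 3 ≤ δ * 2 ^ k →
    (∑ b : Fin (2 ^ k) → Fin 2, ind (ov M (glue a (2 ^ k) x b) a (2 ^ k) ≤ w ∧
      (1 / 2 + δ) * 2 ^ k ≤ agr M (glue a (2 ^ k) x b) a (2 ^ k))) / 2 ^ (2 ^ k) ≤
      tau M (2 ^ k) w δ

/-! ### Averages -/

/-- Module GLU (100 lines).  PROOF.  The map `(x, b) ↦ glue a s (X x) b` hits every sequence `X y` exactly
`2^s` times: `(x, b)` corresponds to `(y, b')` with `y` = the restriction of the glued sequence and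
`b'` = the old block of `x` (a bijection of `(Fin N → Fin 2) × (Fin s → Fin 2)`). -/
def SpecGLU : Prop :=
  ∀ (N a s : ℕ) (f : (ℕ → Fin 2) → ℝ), a + s ≤ N →
    Ex N f = Ex N (fun x => (∑ b : Fin s → Fin 2, f (glue a s x b)) / 2 ^ s)

/-- Module PRJ (from LOC; 90 lines).  PROOF.  `Agree M x n` only depends on `x 0, .., x (n-1)`
(`LOC.congr`; the positions in `Y x n` are `< n`), and for `x = X w` it is the statement about the
word `List.ofFn w` (`LOC.list`; `par (List.ofFn ..) = Y`).  Each `w : Fin n → Fin 2` has `2^(N-n)`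
extensions to `Fin N`. -/
def SpecPRJ : Prop :=
  ∀ (M : TM) (N n : ℕ), n ≤ N → Ex N (fun x => ind (Agree M x n)) =
    (∑ w : Fin n → Fin 2, ind (Acc M (List.ofFn w) ↔ List.ofFn w ∈ Lang)) / 2 ^ n

/-- Module AVG (from CNT, GLU; 150 lines).  PROOF.  Let `s = 2^k`.  Every `n < N` with `2 s - 1 ≤ n ≤ N - s`
is in exactly `s` of the intervals `[a+s,a+2s)`, `a < N + 1 - 2 s`; the other `n < N` are at most `3 s`.
So `s ∑_(n<N) ind (Agree n) ≤ ∑_a agr a + 3 s²`.  For every `a`
`agr a ≤ (1/2+δ) s + s ind (w < ov) + s ind (ov ≤ w and (1/2+δ) s ≤ agr a)` (`agr a ≤ s`) and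
`ind (w < ov) ≤ ov / w`.  The expectation of the last indicator is at most `tau` by GLU (`a + s ≤ N`) and
CNT.  Sum over the at most `N` values of `a`, divide by `s`. -/
def SpecAVG : Prop :=
  ∀ (M : TM) (N k w : ℕ) (δ : ℝ), 2 ≤ k → 1 ≤ w → 0 < δ → 3 ≤ δ * 2 ^ k →
    Ex N (fun x => ∑ n ∈ range N, ind (Agree M x n)) ≤
      N * (1 / 2 + δ) +
      (∑ a ∈ range (N + 1 - 2 * 2 ^ k), Ex N (fun x => (ov M x a (2 ^ k) : ℝ))) / w +
      N * tau M (2 ^ k) w δ + 3 * 2 ^ k

/-- Module TAU (120 lines).  PROOF.  `log Db = log (q+1) + k (2 log (4s+2) + log (w+1) + w log (g+1))`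
with `w ≤ ε s + 1`.  Choose `ε > 0` with `k ε log (g+1) ≤ δ²/8`; all other terms are `o(s)`, and the
exponential is `exp (-(δ²/2) (s-3))`: the product tends to `0` for `s → ∞`. -/
def SpecTAU : Prop :=
  ∀ (M : TM) (δ : ℝ), 0 < δ → ∃ ε : ℝ, 0 < ε ∧ ∃ K₀ : ℕ, ∀ k ≥ K₀,
    2 ≤ k ∧ 3 ≤ δ * 2 ^ k ∧ tau M (2 ^ k) (⌈ε * 2 ^ k⌉₊) δ ≤ δ

/-- Module ASY (from OVL, AVG, TAU; 150 lines).  PROOF.  `ε`, `K₀` from TAU; `K₁ > K₀` with
`3 k ≤ δ ε (K₁ - K₀)` (`k` tapes); `N₀` with `3 * 2^K₁ ≤ δ N₀`.  For `N ≥ N₀` apply OVL to every head and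
sum over the heads and take the expectation: `∑_(k ∈ [K₀,K₁)) S_k / 2^k ≤ 3 k N` with
`S_k = ∑_a Ex N (ov a 2^k)`.  So some `k ∈ [K₀,K₁)` has `S_k / 2^k ≤ 3 k N / (K₁ - K₀) ≤ δ ε N`, and with
`w = ⌈ε 2^k⌉`: `S_k / w ≤ S_k / (ε 2^k) ≤ δ N`.  AVG: the sum is at most
`N (1/2 + δ) + δ N + δ N + 3 * 2^K₁ ≤ N (1/2 + 4 δ)`. -/
def SpecASY : Prop :=
  ∀ (M : TM) (δ : ℝ), 0 < δ → ∃ N₀ : ℕ, ∀ N ≥ N₀,
    Ex N (fun x => ∑ n ∈ range N, ind (Agree M x n)) ≤ N * (1 / 2 + 4 * δ)

/-- The proportion of the words of length `n` on which `M` and the language agree. -/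
noncomputable def prop (M : TM) (n : ℕ) : ℝ :=
  (∑ w : Fin n → Fin 2, ind (Acc M (List.ofFn w) ↔ List.ofFn w ∈ Lang)) / 2 ^ n

/-- Module FIN (from PRJ, ASY; 120 lines).  PROOF.  Let `M'` be the machine `M` with the accepting sets
`F' n = F n` if `prop M n ≥ 1/2` and the complement of `F n` otherwise (classical).  `Acc M' w` is
`Acc M w` or its negation, depending only on the length of `w` (the configurations are those of `M`:
`step`, `ini` do not use `F`; map the configurations of `M` to those of `M'` and use induction, or note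
that it holds by `rfl` on the fields), so `prop M' n` is `prop M n` or `1 - prop M n`, i.e.
`prop M' n - 1/2 = |prop M n - 1/2|` (there are `2^n` words).  `∑_(n<N) prop M' n =
Ex N (∑ n < N, ind (Agree M' x n))` by PRJ and linearity, at most `N (1/2 + 4 δ)` for `N ≥ N₀` by ASY.
Hence `0 ≤ ∑_(n<N) |prop M n - 1/2| ≤ 4 δ N` for `N ≥ N₀`. -/
def SpecFIN : Prop :=
  ∀ M : TM, Tendsto (fun N : ℕ => (∑ n ∈ range N, |prop M n - 1 / 2|) / N) atTop (𝓝 0)

end Pool.Agent.Lib.MP9d2f5e
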